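import Pool.Agent.Helper36.ZU.Transfer
import Pool.Agent.Helper89.ZT.Lead

/-! # Bounded denominators at all places -/

namespace Pool.Agent.Helper36.ZV
open Finset MvPolynomial Pool.Agent.Helper11.ZP Pool.Agent.Helper20.ZT Pool.Agent Pool.Agent.Helper36.ZU

/-- a multiple of an algebraic number is integral at all places -/
lemma exists_denom_all {z : ℂ} (hz : IsAlgebraic ℚ z) : ∃ m : ℕ, 0 < m ∧
    ∀ O : ValuationSubring ℂ, (m : ℂ) * z ∈ O := by
  have h1 : IsAlgebraic ℤ z := (IsFractionRing.isAlgebraic_iff ℤ ℚ ℂ).2 hz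
  obtain ⟨y, hy, hint⟩ := h1.exists_integral_multiple
  refine ⟨y.natAbs, Int.natAbs_pos.2 hy, fun O => ?_⟩
  have h4 := mem_of_isIntegral_int O hint
  rw [zsmul_eq_mul] at h4
  rcases Int.natAbs_eq y with h | h
  · have h2 : ((y : ℤ) : ℂ) = ((y.natAbs : ℕ) : ℂ) := (congrArg (Int.cast : ℤ → ℂ) h).trans (Int.cast_natCast _)
    rwa [h2] at h4
  · have h2 : ((y : ℤ) : ℂ) = -((y.natAbs : ℕ) : ℂ) :=
      (congrArg (Int.cast : ℤ → ℂ) h).trans (by rw [Int.cast_neg, Int.cast_natCast])
    rw [h2, neg_mul] at h4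
    have h5 := neg_mem h4
    rwa [neg_neg] at h5

/-- **valuation rings of `ℂ` with a given restriction to the algebraic numbers, at which finitely many
numbers have bounded denominators** -/
theorem exists_placeM (s : Finset ℂ) : ∃ M : ℕ, 0 < M ∧ ∀ O : ValuationSubring ℂ,
    ∃ O₀ : ValuationSubring ℂ, (∀ z, IsAlgebraic ℚ z → (z ∈ O₀ ↔ z ∈ O)) ∧
      ∀ z ∈ s, (M : ℂ) * z ∈ O₀ := by
  classical
  obtain ⟨R, ψ, hs, halg, hψ⟩ := exists_special s
  choose d hd0 hd using fun r : R => exists_denom_all (halg r)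
  set M : ℕ := ∏ z ∈ s.attach, d ⟨z.1, hs _ z.2⟩ with hM
  refine ⟨M, prod_pos fun z _ => hd0 _, fun O => ?_⟩
  obtain ⟨O₀, h1, -, h3⟩ := place_of_hom hψ O
  refine ⟨O₀, h1, fun z hz => ?_⟩
  have h4 := h3 ((M : R) * ⟨z, hs z hz⟩) (by
    rw [map_mul, map_natCast]
    obtain ⟨k, hk⟩ : d ⟨z, hs z hz⟩ ∣ M :=
      Finset.dvd_prod_of_mem (fun z : {x // x ∈ s} => d ⟨z.1, hs _ z.2⟩) (mem_attach _ (⟨z, hz⟩ : {x // x ∈ s}))
    rw [hk]
    push_cast
    have h5 : (d ⟨z, hs z hz⟩ : ℂ) * k * ψ ⟨z, hs z hz⟩ = k * ((d ⟨z, hs z hz⟩ : ℂ) * ψ ⟨z, hs z hz⟩) := by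
      ring
    rw [h5]
    exact mul_mem (natCast_mem O k) (hd _ O))
  simpa using h4

/-- an algebraic number which is not integral has a pole above some prime number -/
theorem exists_pole {c : ℂ} (halg : IsAlgebraic ℚ c) (h : ¬ IsIntegral ℤ c) :
    ∃ (p : ℕ) (O : ValuationSubring ℂ), p.Prime ∧ (p : ℂ) ∈ O.nonunits ∧ c ∉ O := by
  have h1 : c ∉ (integralClosure ℤ ℂ).toSubring := h
  have h2 : IsIntegrallyClosedIn (integralClosure ℤ ℂ).toSubring ℂ :=
    inferInstanceAs (IsIntegrallyClosedIn (integralClosure ℤ ℂ) ℂ)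
  obtain ⟨O, -, hO⟩ := Subring.exists_le_valuationSubring_of_isIntegrallyClosedIn h1
  by_contra hcon
  push Not at hcon
  -- all primes are units
  have hunit : ∀ m : ℕ, 0 < m → O.valuation (m : ℂ) = 1 := by
    intro m
    induction m using Nat.recOnMul with
    | zero => intro h0; exact absurd h0 (lt_irrefl _)
    | one => intro _; rw [Nat.cast_one, map_one]
    | prime p hp =>
      intro _
      refine le_antisymm ((val_mem O).1 (natCast_mem O p)) (not_lt.1 fun h3 => ?_)
      exact hO (hcon p O hp ((val_non O).2 h3))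
    | mul a b iha ihb =>
      intro hab
      have ha : 0 < a := Nat.pos_of_mul_pos_right hab
      have hb : 0 < b := Nat.pos_of_mul_pos_left hab
      rw [Nat.cast_mul, map_mul, iha ha, ihb hb, one_mul]
  obtain ⟨m, hm0, hm⟩ := exists_denom_all halg
  have h3 := (val_mem O).1 (hm O)
  rw [map_mul, hunit m hm0, one_mul, ← val_mem] at h3
  exact hO h3

/-- domination with bounded denominators -/
theorem dominM {n : ℕ} {K : Type*} [Field K] [Algebra ℂ K] (O : ValuationSubring K)
    {J : Finset (Fin n)} {f : MvPolynomial (Fin n) ℂ} (hf : TopIn J f) {M : ℕ} (hM : (M : K) ≠ 0)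
    (hO : ∀ m, (M : K) * algebraMap ℂ K (f.coeff m /
      f.coeff (Finsupp.equivFunOnFinite.symm fun i => f.degreeOf i)) ∈ O)
    {P : Fin n → K} (hP : aeval P f = 0) : ∃ i ∈ J, (M : K) * P i ∈ O := by
  classical
  by_contra hcon
  push Not at hcon
  set t : Fin n →₀ ℕ := Finsupp.equivFunOnFinite.symm fun i => f.degreeOf i with ht
  have hti : ∀ i, t i = f.degreeOf i := fun i => rfl
  have htm : t ∈ f.support := mem_support_iff.2 hf.top
  have hdeg : ∀ i ∉ J, f.degreeOf i = 0 := fun i hi => by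
    refine Nat.le_zero.1 (degreeOf_le_iff.2 fun m hm => Nat.le_zero.2 ?_)
    by_contra h
    exact hi (hf.vars ((mem_vars_iff_mem_support i).2 ⟨m, hm, Finsupp.mem_support_iff.2 h⟩))
  have hMO : O.valuation (M : K) ≤ 1 := (val_mem O).1 (natCast_mem O M)
  have hM0 : O.valuation (M : K) ≠ 0 := (Valuation.ne_zero_iff _).2 hM
  have hbig : ∀ i ∈ J, 1 < O.valuation (M : K) * O.valuation (P i) := by
    intro i hi
    rw [← map_mul]
    exact not_le.1 fun h => hcon i hi ((val_mem O).2 h)
  have hbig1 : ∀ i ∈ J, 1 < O.valuation (P i) := fun i hi =>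
    lt_of_lt_of_le (hbig i hi) (mul_le_of_le_one_left' hMO)
  have hc0 : algebraMap ℂ K (f.coeff t) ≠ 0 := by
    rw [ne_eq, map_eq_zero]
    exact hf.top
  have hval : ∀ m ∈ f.support, ∀ i ∈ (univ : Finset (Fin n)),
      O.valuation (P i) ^ (m i) ≤ O.valuation (P i) ^ (t i) := by
    intro m hm i _
    by_cases hi : i ∈ J
    · exact pow_le_pow_right₀ (hbig1 i hi).le (monomial_le_degreeOf i hm)
    · have h1 : m i = 0 := Nat.le_zero.1 (hdeg i hi ▸ monomial_le_degreeOf i hm)
      rw [hti, hdeg i hi, h1]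
  have hPt : ∏ i, O.valuation (P i) ^ (t i) ≠ 0 := by
    rw [prod_ne_zero_iff]
    intro i _
    by_cases hi : i ∈ J
    · exact pow_ne_zero _ (ne_of_gt (lt_trans zero_lt_one (hbig1 i hi)))
    · rw [hti, hdeg i hi, pow_zero]
      exact one_ne_zero
  have hsum : algebraMap ℂ K (f.coeff t) * ∏ i, P i ^ t i +
      ∑ m ∈ f.support.erase t, algebraMap ℂ K (f.coeff m) * ∏ i, P i ^ m i = 0 := by
    rw [aeval_def, eval₂_eq'] at hP
    rw [← hP]
    exact add_sum_erase f.support (fun m => algebraMap ℂ K (f.coeff m) * ∏ i, P i ^ m i) htm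
  have hlt : O.valuation (∑ m ∈ f.support.erase t, algebraMap ℂ K (f.coeff m) * ∏ i, P i ^ m i) <
      O.valuation (algebraMap ℂ K (f.coeff t) * ∏ i, P i ^ t i) := by
    have hne : O.valuation (algebraMap ℂ K (f.coeff t) * ∏ i, P i ^ t i) ≠ 0 := by
      rw [map_mul, map_prod]
      simp only [map_pow]
      exact mul_ne_zero ((Valuation.ne_zero_iff _).2 hc0) hPt
    refine Valuation.map_sum_lt _ hne fun m hm => ?_
    obtain ⟨hmt, hms⟩ := mem_erase.1 hm
    obtain ⟨j, hj⟩ : ∃ j, m j ≠ t j := by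
      by_contra h
      push Not at h
      exact hmt (Finsupp.ext h)
    have hjlt : m j < t j := lt_of_le_of_ne (monomial_le_degreeOf j hms) hj
    have hjJ : j ∈ J := by
      by_contra h
      rw [hti, hdeg j h] at hjlt
      exact absurd hjlt (Nat.not_lt_zero _)
    rw [map_mul, map_mul, map_prod, map_prod]
    simp only [map_pow]
    -- the quotient of the coefficients
    have h1 : O.valuation (M : K) * O.valuation (algebraMap ℂ K (f.coeff m)) ≤
        O.valuation (algebraMap ℂ K (f.coeff t)) := by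
      have h2 := (val_mem O).1 (hO m)
      rw [map_mul, map_div₀, map_div₀, ← mul_div_assoc] at h2
      exact (div_le_one₀ (zero_lt_iff.2 ((Valuation.ne_zero_iff _).2 hc0))).1 h2
    -- the quotient of the monomials
    have h3 : (∏ i, O.valuation (P i) ^ (m i)) * O.valuation (P j) ≤ ∏ i, O.valuation (P i) ^ (t i) := by
      rw [← mul_prod_erase univ _ (mem_univ j), ← mul_prod_erase univ (fun i => O.valuation (P i) ^ (t i)) (mem_univ j),
        mul_right_comm]
      refine mul_le_mul' ?_ (prod_le_prod' fun i hi => hval m hms i (mem_univ _))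
      rw [← pow_succ]
      exact pow_le_pow_right₀ (hbig1 j hjJ).le hjlt
    have h4 : O.valuation (algebraMap ℂ K (f.coeff m)) <
        O.valuation (algebraMap ℂ K (f.coeff t)) * O.valuation (P j) := by
      have h5 : O.valuation (algebraMap ℂ K (f.coeff m)) * (O.valuation (M : K) * O.valuation (P j)) ≤
          O.valuation (algebraMap ℂ K (f.coeff t)) * O.valuation (P j) := by
        rw [← mul_assoc, mul_comm (O.valuation (algebraMap ℂ K (f.coeff m)))]
        exact mul_le_mul' h1 le_rfl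
      rcases eq_or_ne (O.valuation (algebraMap ℂ K (f.coeff m))) 0 with h0 | h0
      · rw [h0]
        exact zero_lt_iff.2 (mul_ne_zero ((Valuation.ne_zero_iff _).2 hc0) (ne_of_gt (lt_trans zero_lt_one (hbig1 j hjJ))))
      · refine lt_of_lt_of_le ?_ h5
        conv_lhs => rw [← mul_one (O.valuation (algebraMap ℂ K (f.coeff m)))]
        exact mul_lt_mul_of_pos_left (hbig j hjJ) (zero_lt_iff.2 h0)
    have hPm : ∏ i, O.valuation (P i) ^ (m i) ≠ 0 := by
      rw [prod_ne_zero_iff]
      intro i _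
      by_cases hi : i ∈ J
      · exact pow_ne_zero _ (ne_of_gt (lt_trans zero_lt_one (hbig1 i hi)))
      · have h1 : m i = 0 := Nat.le_zero.1 (hdeg i hi ▸ monomial_le_degreeOf i hms)
        rw [h1, pow_zero]
        exact one_ne_zero
    calc O.valuation (algebraMap ℂ K (f.coeff m)) * ∏ i, O.valuation (P i) ^ (m i)
        < (O.valuation (algebraMap ℂ K (f.coeff t)) * O.valuation (P j)) * ∏ i, O.valuation (P i) ^ (m i) :=
          mul_lt_mul_of_pos_right h4 (zero_lt_iff.2 hPm)
      _ = O.valuation (algebraMap ℂ K (f.coeff t)) * ((∏ i, O.valuation (P i) ^ (m i)) * O.valuation (P j)) := by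
          rw [mul_assoc, mul_comm (O.valuation (P j))]
      _ ≤ _ := mul_le_mul' le_rfl h3
  rw [eq_neg_of_add_eq_zero_left hsum, Valuation.map_neg] at hlt
  exact lt_irrefl _ hlt

end Pool.Agent.Helper36.ZV
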