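import Pool.Agent.Helper36.ZV.Main

/-! # Constant vectors: all algebraic numbers outside a lattice -/

namespace Pool.Agent.Helper36.ZV
open Finset MvPolynomial Pool.Agent.Helper11.ZP Pool.Agent.Helper20.ZT Pool.Agent Pool.Agent.Helper36.ZU
open Pool.Agent.Helper11.ZT
open scoped Nat

variable {n : ℕ} {ι : Type*}

/-- separation without denominators -/
lemma sepM_of_sep {O : ValuationSubring ℂ} {κ : Fin n → ι} {a : Fin n → ℂ} {M : ℕ}
    (hM : O.valuation (M : ℂ) = 1) (h : Sep O κ a) : SepM M O κ a := by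
  have key : ∀ z : ℂ, (M : ℂ) * z ∈ O → z ∈ O := by
    intro z hz
    rwa [val_mem, map_mul, hM, one_mul, ← val_mem] at hz
  exact ⟨fun i hi => h.out i (key _ hi), h.val, h.same, fun i j ζ N hN hζ hz => h.sep i j ζ N hN hζ (key _ hz)⟩

/-- **constant vectors** `(c, …, c)` -/
theorem sepM_const {O : ValuationSubring ℂ} {p : ℕ} (hp : p.Prime) (hpO : (p : ℂ) ∈ O.nonunits) {c : ℂ}
    {M : ℕ} (hc : (p : ℂ) * ((M : ℂ) * c) ^ (p - 1) ∉ O) :
    SepM M O (fun _ : Fin n => ()) (fun _ => c) := by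
  refine ⟨fun i h => hc (mem_mul O (natCast_mem O p) (pow_mem h _)), fun _ _ => rfl, fun _ _ _ => rfl,
    fun i j ζ N hN hζ h => ⟨?_, rfl⟩⟩
  by_contra hne
  apply hc
  have h1 : ((M : ℂ) * c) * (1 - ζ) ∈ O := by
    have : ((M : ℂ) * c) * (1 - ζ) = M * (c - ζ * c) := by ring
    rwa [this]
  have h2 := pow_mem h1 (p - 1)
  rw [val_mem, mul_pow, map_mul, map_pow O.valuation (1 - ζ)] at h2
  rw [val_mem, map_mul, mul_comm]
  exact (mul_le_mul_right (root_far O hp hpO hN hζ hne) _).trans h2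

/-- the degree of a multiple -/
lemma natDegree_mul_le {c : ℂ} (halg : IsAlgebraic ℚ c) (M : ℕ) :
    (minpoly ℚ ((M : ℂ) * c)).natDegree ≤ (minpoly ℚ c).natDegree := by
  have hint : IsIntegral ℚ c := halg.isIntegral
  have h1 : Polynomial.aeval ((M : ℂ) * c) ((minpoly ℚ c).scaleRoots (M : ℚ)) = 0 := by
    have h2 := Polynomial.scaleRoots_aeval_eq_zero (p := minpoly ℚ c) (a := c) (r := (M : ℚ)) (minpoly.aeval ℚ c)
    simpa using h2
  have h3 : (minpoly ℚ c).scaleRoots (M : ℚ) ≠ 0 := Polynomial.scaleRoots_ne_zero (minpoly.ne_zero hint) _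
  have h4 := Polynomial.natDegree_le_natDegree (minpoly.degree_le_of_ne_zero ℚ _ h3 h1)
  rwa [Polynomial.natDegree_scaleRoots] at h4

/-- **constant vectors of algebraic numbers outside a lattice** -/
theorem exists_sepM {c : ℂ} (halg : IsAlgebraic ℚ c) {M : ℕ}
    (h : ¬ IsIntegral ℤ ((((minpoly ℚ c).natDegree + 1)! * M : ℕ) * c)) :
    ∃ O : ValuationSubring ℂ, SepM M O (fun _ : Fin n => ()) (fun _ => c) := by
  set D := (minpoly ℚ c).natDegree with hD
  obtain ⟨p, O, hp, hpO, hcO⟩ := exists_pole ((isAlgebraic_natCast (R := ℚ) ((D + 1)! * M)).mul halg) h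
  refine ⟨O, sepM_const hp hpO ?_⟩
  have hvp := (val_non O).1 hpO
  have hMc : (M : ℂ) * c ∉ O := by
    intro h1
    apply hcO
    push_cast
    rw [mul_assoc]
    exact mul_mem (natCast_mem O _) h1
  rcases lt_or_ge (D + 1) p with hlt | hge
  · exact far_of_degree hp hpO hMc ((isAlgebraic_natCast M).mul halg)
      (lt_of_le_of_lt (Nat.add_le_add_right (natDegree_mul_le halg M) 1) hlt)
  · obtain ⟨k, hk⟩ : p ∣ (D + 1)! := (hp.dvd_factorial).2 hge
    have h1 : (p : ℂ) * ((M : ℂ) * c) ∉ O := by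
      intro h2
      apply hcO
      rw [hk]
      push_cast
      have h3 : (p : ℂ) * k * M * c = k * (p * (M * c)) := by ring
      rw [h3]
      exact mul_mem (natCast_mem O _) h2
    rw [val_mem, map_mul, not_le] at h1 ⊢
    have h2 : 1 < O.valuation ((M : ℂ) * c) := not_le.1 fun h => hMc ((val_mem O).2 h)
    refine lt_of_lt_of_le h1 (mul_le_mul' le_rfl ?_)
    rw [map_pow]
    conv_lhs => rw [← pow_one (O.valuation ((M : ℂ) * c))]
    exact pow_le_pow_right₀ h2.le (by have := hp.two_le; omega)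

/-- rational numbers -/
lemma rat_not_integral {c : ℚ} {m : ℕ} (hm : 0 < m) (h : ¬ c.den ∣ m) : ¬ IsIntegral ℤ ((m : ℂ) * (c : ℂ)) := by
  intro hint
  apply h
  have h1 : IsIntegral ℤ ((m : ℚ) * c) := by
    have h2 : ((m : ℂ) * (c : ℂ)) = algebraMap ℚ ℂ ((m : ℚ) * c) := by simp
    rw [h2] at hint
    exact (isIntegral_algebraMap_iff (algebraMap ℚ ℂ).injective).1 hint
  obtain ⟨k, hk⟩ := IsIntegrallyClosed.isIntegral_iff.1 h1
  have hk' : (k : ℚ) = m * c := by simpa using hk
  have hm0 : (m : ℚ) ≠ 0 := by exact_mod_cast hm.ne'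
  have h3 : c = (k : ℚ) / ((m : ℤ) : ℚ) := by
    rw [hk']
    push_cast
    field_simp
  have h4 := Rat.den_dvd k (m : ℤ)
  have h5 : c = Rat.divInt k (m : ℤ) := by
    rw [h3, Rat.divInt_eq_div]
  rw [← h5] at h4
  exact Int.natCast_dvd_natCast.1 h4

lemma minpoly_rat_degree (c : ℚ) : (minpoly ℚ ((c : ℚ) : ℂ)).natDegree = 1 := by
  have h1 : minpoly ℚ ((c : ℚ) : ℂ) = Polynomial.X - Polynomial.C c := by
    rw [← eq_ratCast (algebraMap ℚ ℂ) c]
    exact minpoly.eq_X_sub_C ℂ c
  rw [h1, Polynomial.natDegree_X_sub_C]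

/-! ### The curve -/

/-- the curve `z_i = s / (1 - i s)` is in general position with the denominator `(n - 1)!` -/
lemma genPosM_curve {i j : Fin n} (hij : i ≠ j) (O : ValuationSubring ℂ) :
    ∃ f : MvPolynomial (Fin n) ℂ, TopIn {i, j} f ∧
      (∀ m, (((n - 1)! : ℕ) : ℂ) *
        (f.coeff m / f.coeff (Finsupp.equivFunOnFinite.symm fun i => f.degreeOf i)) ∈ O) ∧
      ∀ z ∈ curve n, eval z f = 0 := by
  classical
  set c : ℤ := (j : ℤ) - i with hc
  have hc0' : c ≠ 0 := by
    intro h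
    apply hij
    apply Fin.ext
    omega
  have hc0 : (c : ℂ) ≠ 0 := by exact_mod_cast hc0'
  have hdvd : (c : ℤ) ∣ (((n - 1)! : ℕ) : ℤ) := by
    rw [← Int.natAbs_dvd, Int.natCast_dvd_natCast]
    refine Nat.dvd_factorial (Int.natAbs_pos.2 hc0') ?_
    have hi := i.2
    have hj := j.2
    omega
  obtain ⟨k, hk⟩ := hdvd
  obtain ⟨mi, hmi⟩ : ∃ m : Fin n →₀ ℕ, m = Finsupp.single i 1 := ⟨_, rfl⟩
  obtain ⟨mj, hmj⟩ : ∃ m : Fin n →₀ ℕ, m = Finsupp.single j 1 := ⟨_, rfl⟩
  obtain ⟨m0, hm0⟩ : ∃ m : Fin n →₀ ℕ, m = mi + mj := ⟨_, rfl⟩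
  set f : MvPolynomial (Fin n) ℂ := monomial m0 (c : ℂ) + monomial mi 1 - monomial mj 1 with hf
  have hcoe : ∀ m, f.coeff m = (((if m0 = m then c else 0) + (if mi = m then 1 else 0) -
      (if mj = m then 1 else 0) : ℤ) : ℂ) := by
    intro m
    rw [hf, coeff_sub, coeff_add, coeff_monomial, coeff_monomial, coeff_monomial]
    push_cast
    rfl
  have hi0 : mi ≠ m0 := by
    intro h
    have := DFunLike.congr_fun h j
    simp [hm0, hmj] at this
  have hj0 : mj ≠ m0 := by
    intro h
    have := DFunLike.congr_fun h i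
    simp [hm0, hmi] at this
  have hc1 : f.coeff m0 = c := by
    rw [hcoe, if_pos rfl, if_neg hi0, if_neg hj0]
    push_cast; ring
  have hsup : ∀ m ∈ f.support, m ≤ m0 := by
    intro m hm
    rw [mem_support_iff, hcoe] at hm
    by_cases h0 : m0 = m
    · rw [h0]
    · by_cases h1 : mi = m
      · rw [← h1, hm0]; exact le_self_add
      · by_cases h2 : mj = m
        · rw [← h2, hm0]; exact le_add_self
        · rw [if_neg h0, if_neg h1, if_neg h2] at hm
          exact absurd (by push_cast; ring) hm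
  have htop : (Finsupp.equivFunOnFinite.symm fun k => f.degreeOf k) = m0 := by
    ext k
    change f.degreeOf k = m0 k
    apply le_antisymm
    · rw [degreeOf_le_iff]
      intro m hm
      exact hsup m hm k
    · apply monomial_le_degreeOf
      rw [mem_support_iff, hc1]
      exact hc0
  refine ⟨f, ⟨?_, ?_⟩, fun m => ?_, ?_⟩
  · intro k hk
    rw [mem_vars_iff_mem_support] at hk
    obtain ⟨m, hm, hmk⟩ := hk
    have h1 := hsup m hm k
    rw [Finsupp.mem_support_iff] at hmk
    by_contra hcon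
    simp only [Finset.mem_insert, Finset.mem_singleton, not_or] at hcon
    apply hmk
    have h2 : m0 k = 0 := by
      simp [hm0, hmi, hmj, Ne.symm hcon.1, Ne.symm hcon.2]
    omega
  · rw [htop, hc1]
    exact hc0
  · rw [htop, hc1, hcoe]
    have h1 : (((n - 1)! : ℕ) : ℂ) = c * k := by
      have h2 : ((((n - 1)! : ℕ) : ℤ) : ℂ) = ((c * k : ℤ) : ℂ) := by rw [hk]
      rw [Int.cast_natCast, Int.cast_mul] at h2
      exact h2
    set u : ℤ := (if m0 = m then c else 0) + (if mi = m then 1 else 0) - (if mj = m then 1 else 0)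
    have h2 : (((n - 1)! : ℕ) : ℂ) * ((u : ℂ) / c) = ((k * u : ℤ) : ℂ) := by
      rw [h1]
      push_cast
      field_simp
    rw [h2]
    exact intCast_mem O _
  · rintro z ⟨t, ht⟩
    have hti := (ht i).1
    have htj := (ht j).1
    rw [hf, map_sub, map_add, eval_monomial, eval_monomial, eval_monomial]
    rw [hm0, Finsupp.prod_add_index' (by simp) (by intros; rw [pow_add])]
    rw [hmi, hmj]
    rw [Finsupp.prod_single_index (by simp), Finsupp.prod_single_index (by simp), (ht i).2, (ht j).2]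
    have : (c : ℂ) = (j : ℂ) - i := by rw [hc]; push_cast; rfl
    rw [this]
    field_simp
    ring

/-- hereditary general position of the curve with the denominator `(n - 1)!` at all places -/
theorem herGPAtM_curve (O₀ : ValuationSubring ℂ) (hZ : IsSubvariety (curve n)) (h1 : dim (curve n) = 1)
    (κ : Fin n → ι) : HerGPAtM (n - 1)! O₀ κ (curve n) := by
  intro π _ B hB hBd J hJ _
  by_cases hinj : Function.Injective π
  · have hncl : ncl π = n := by
      rw [ncl, Finset.card_image_of_injective _ hinj, card_univ, Fintype.card_fin]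
    rw [h1, hncl] at hJ
    have hJ' : J.card = 2 := by omega
    have hdel : curve n ∩ Del π = curve n := by
      refine Set.inter_eq_left.2 fun z _ i j hij => ?_
      rw [hinj hij]
    rw [hdel] at hB
    have hBZ : B = curve n := (hB.2.2 _ hZ hB.2.1 subset_rfl).symm
    obtain ⟨i, j, hij, rfl⟩ := Finset.card_eq_two.1 hJ'
    obtain ⟨f, h2, h3, h5⟩ := genPosM_curve hij O₀
    exact ⟨f, h2, h3, fun z hz => h5 z (hBZ ▸ hz)⟩
  · rw [Function.Injective] at hinj
    push Not at hinj
    obtain ⟨i, j, hij, hne⟩ := hinj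
    have hB0 : B ⊆ {0} := hB.2.1.trans (curve_inter hne hij)
    have hBe : B = {0} := by
      obtain ⟨z, hz⟩ := IsSubvariety.nonempty' hB.1
      refine Set.Subset.antisymm hB0 ?_
      rw [Set.singleton_subset_iff, ← Set.mem_singleton_iff.1 (hB0 hz)]
      exact hz
    rw [hBe, dim_point] at hBd
    obtain ⟨k, hk⟩ := Finset.card_pos.1 (show 0 < J.card by omega)
    have h2 := topIn_point (0 : Fin n → ℂ) k
    have hf : (X k - C ((0 : Fin n → ℂ) k) : MvPolynomial (Fin n) ℂ) = X k := by simp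
    rw [hf] at h2
    have hcoe : ∀ m : Fin n →₀ ℕ, (X k : MvPolynomial (Fin n) ℂ).coeff m = 0 ∨
        (X k : MvPolynomial (Fin n) ℂ).coeff m = 1 := by
      intro m
      rw [coeff_X]
      split_ifs
      · exact Or.inr rfl
      · exact Or.inl rfl
    refine ⟨X k, ⟨h2.vars.trans (Finset.singleton_subset_iff.2 hk), h2.top⟩, fun m => ?_, ?_⟩
    · have h3 := (hcoe (Finsupp.equivFunOnFinite.symm fun i => (X k : MvPolynomial (Fin n) ℂ).degreeOf i)).resolve_left h2.top
      rw [h3, div_one]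
      rcases hcoe m with h | h <;> rw [h]
      · rw [mul_zero]; exact zero_mem _
      · rw [mul_one]; exact natCast_mem _ _
    · intro z hz
      have := hB0 hz
      rw [Set.mem_singleton_iff.1 this]
      simp

/-- **the constant translates of the curve** `z_i = s / (1 - i s)` -/
theorem curve_all (hn : 3 ≤ n) {c : ℂ} (halg : IsAlgebraic ℚ c)
    (h : ¬ IsIntegral ℤ ((((minpoly ℚ c).natDegree + 1)! * (n - 1)! : ℕ) * c)) (A : Set (Fin n → ℂ)) :
    IsAtypical (trans (curve n) (fun _ => c)) A ↔ A = {fun _ => c} := by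
  obtain ⟨hZ, h1⟩ := curve_facts (n := n) (by omega)
  obtain ⟨O, hsep⟩ := exists_sepM (n := n) halg h
  have htr : trans ({0} : Set (Fin n → ℂ)) (fun _ => c) = {fun _ => c} := by
    ext z
    rw [mem_trans, Set.mem_singleton_iff, Set.mem_singleton_iff]
    constructor
    · intro h
      funext i
      have := congrFun h i
      simpa [sub_eq_zero] using this
    · rintro rfl
      funext i
      simp
  constructor
  · intro hA
    obtain ⟨B, hB, hAB⟩ := coverM hZ (Nat.factorial_pos _) (herGPAtM_curve O hZ h1 _) hsep hA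
    rw [(isDiag_curve hn).1 hB, htr] at hAB
    obtain ⟨S, ⟨hAs, -, -⟩, -⟩ := hA
    obtain ⟨z, hz⟩ := IsSubvariety.nonempty' hAs
    refine Set.Subset.antisymm hAB ?_
    rw [Set.singleton_subset_iff, ← Set.mem_singleton_iff.1 (hAB hz)]
    exact hz
  · rintro rfl
    have := isAtypical_trans ((isDiag_curve hn).2 rfl) hsep.same
    rwa [htr] at this

end Pool.Agent.Helper36.ZV
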