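import Pool.Agent.Helper36.ZV.Const

/-! # Descent to an algebraically closed subfield -/

namespace Pool.Agent.Helper36.ZV
open Finset MvPolynomial Pool.Agent.Helper11.ZP Pool.Agent.Helper20.ZT Pool.Agent Pool.Agent.Helper36.ZU

section desc
variable {n : ℕ} {k : Type*} [Field k] [Algebra k ℂ]

/-- a linear form applied to the coefficients -/
noncomputable def lam (l : ℂ →ₗ[k] k) (f : MvPolynomial (Fin n) ℂ) : MvPolynomial (Fin n) k :=
  ∑ m ∈ f.support, monomial m (l (f.coeff m))

lemma coeff_lam (l : ℂ →ₗ[k] k) (f : MvPolynomial (Fin n) ℂ) (m : Fin n →₀ ℕ) :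
    (lam l f).coeff m = l (f.coeff m) := by
  classical
  rw [lam, coeff_sum]
  simp only [coeff_monomial]
  rw [Finset.sum_ite_eq' f.support m fun m => l (f.coeff m)]
  by_cases hm : m ∈ f.support
  · rw [if_pos hm]
  · rw [if_neg hm, notMem_support_iff.1 hm, map_zero]

lemma lam_map_mul (l : ℂ →ₗ[k] k) (p : MvPolynomial (Fin n) k) (h : MvPolynomial (Fin n) ℂ) :
    lam l (map (algebraMap k ℂ) p * h) = p * lam l h := by
  classical
  ext m
  rw [coeff_lam, coeff_mul, coeff_mul, map_sum]
  refine sum_congr rfl fun x _ => ?_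
  rw [coeff_map, coeff_lam, ← Algebra.smul_def, map_smul, smul_eq_mul]

lemma lam_mem (l : ℂ →ₗ[k] k) {P : Ideal (MvPolynomial (Fin n) k)} {f : MvPolynomial (Fin n) ℂ}
    (hf : f ∈ P.map (map (algebraMap k ℂ))) : lam l f ∈ P := by
  suffices h : ∀ h, lam l (h * f) ∈ P by
    have h1 := h 1
    rwa [one_mul] at h1
  refine Submodule.span_induction (p := fun f _ => ∀ h, lam l (h * f) ∈ P) ?_ ?_ ?_ ?_ hf
  · rintro _ ⟨p, hp, rfl⟩ h
    rw [mul_comm, lam_map_mul]
    exact P.mul_mem_right _ hp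
  · intro h
    have h1 : lam l (0 : MvPolynomial (Fin n) ℂ) = 0 := by
      ext m
      rw [coeff_lam, coeff_zero, map_zero, coeff_zero]
    rw [mul_zero, h1]
    exact P.zero_mem
  · intro x y _ _ hx hy h
    have h1 : lam l (h * x + h * y) = lam l (h * x) + lam l (h * y) := by
      ext m
      rw [coeff_add, coeff_lam, coeff_lam, coeff_lam, coeff_add, map_add]
    rw [mul_add, h1]
    exact P.add_mem (hx h) (hy h)
  · intro a x _ hx h
    rw [smul_eq_mul, ← mul_assoc]
    exact hx _

lemma eval_lam (l : ℂ →ₗ[k] k) (f : MvPolynomial (Fin n) ℂ) (z : Fin n → k) :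
    eval z (lam l f) = l (eval (fun i => algebraMap k ℂ (z i)) f) := by
  rw [lam, map_sum, eval_eq', map_sum]
  refine sum_congr rfl fun m _ => ?_
  rw [eval_monomial, Finsupp.prod_fintype _ _ (fun i => pow_zero _)]
  have h1 : f.coeff m * ∏ i, algebraMap k ℂ (z i) ^ m i = (∏ i, z i ^ m i) • f.coeff m := by
    rw [Algebra.smul_def, map_prod, mul_comm]
    simp only [map_pow]
  rw [h1, map_smul, smul_eq_mul, mul_comm]

lemma mem_map_of_lam {P : Ideal (MvPolynomial (Fin n) k)} {f : MvPolynomial (Fin n) ℂ}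
    (h : ∀ l : ℂ →ₗ[k] k, lam l f ∈ P) : f ∈ P.map (map (algebraMap k ℂ)) := by
  classical
  let b := Module.Basis.ofVectorSpace k ℂ
  set T := f.support.biUnion fun m => (b.repr (f.coeff m)).support with hT
  have hf : f = ∑ i ∈ T, C (b i) * map (algebraMap k ℂ) (lam (b.coord i) f) := by
    ext m
    rw [coeff_sum]
    simp only [coeff_C_mul, coeff_map, coeff_lam, Module.Basis.coord_apply]
    by_cases hm : m ∈ f.support
    · have h1 : (b.repr (f.coeff m)).support ⊆ T := by
        intro i hi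
        rw [hT, mem_biUnion]
        exact ⟨m, hm, hi⟩
      rw [← Finset.sum_subset h1 (fun i _ hi => by
        rw [Finsupp.notMem_support_iff.1 hi, map_zero, mul_zero])]
      have h2 := b.linearCombination_repr (f.coeff m)
      rw [Finsupp.linearCombination_apply, Finsupp.sum] at h2
      refine h2.symm.trans (sum_congr rfl fun i _ => ?_)
      rw [Algebra.smul_def, mul_comm]
    · rw [notMem_support_iff.1 hm]
      refine (Finset.sum_eq_zero fun i _ => ?_).symm
      rw [map_zero, Finsupp.coe_zero, Pi.zero_apply, map_zero, mul_zero]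
  rw [hf]
  refine Ideal.sum_mem _ fun i _ => ?_
  exact Ideal.mul_mem_left _ _ (Ideal.mem_map_of_mem _ (h _))

lemma exists_form {c : ℂ} (hc : c ≠ 0) : ∃ l : ℂ →ₗ[k] k, l c ≠ 0 := by
  let b := Module.Basis.ofVectorSpace k ℂ
  by_contra hcon
  push Not at hcon
  apply hc
  have h1 : b.repr c = 0 := by
    ext i
    exact hcon (b.coord i)
  exact (LinearEquiv.map_eq_zero_iff b.repr).1 h1

/-- the points over the subfield -/
lemma vanish_map {P : Ideal (MvPolynomial (Fin n) k)} {z : Fin n → k} (hz : z ∈ zeroLocus k P)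
    {f : MvPolynomial (Fin n) ℂ} (hf : f ∈ P.map (map (algebraMap k ℂ))) :
    eval (fun i => algebraMap k ℂ (z i)) f = 0 := by
  have h1 : P.map (map (algebraMap k ℂ)) ≤ RingHom.ker (eval fun i => algebraMap k ℂ (z i)) := by
    rw [Ideal.map_le_iff_le_comap]
    intro p hp
    rw [Ideal.mem_comap, RingHom.mem_ker, eval_map]
    have h2 := hz p hp
    rw [aeval_eq_eval] at h2
    have h3 : eval₂ (algebraMap k ℂ) (fun i => algebraMap k ℂ (z i)) p = algebraMap k ℂ (eval z p) := by
      have h4 := eval₂_comp_left (algebraMap k ℂ) (RingHom.id k) z p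
      rw [RingHom.comp_id] at h4
      exact h4.symm
    rw [h3, h2, map_zero]
  exact h1 hf

variable [IsAlgClosed k]

/-- the extension of a prime ideal is prime -/
theorem prime_map (P : Ideal (MvPolynomial (Fin n) k)) [hP : P.IsPrime] :
    (P.map (map (algebraMap k ℂ))).IsPrime := by
  refine Ideal.isPrime_iff.2 ⟨fun htop => ?_, fun {f g} hfg => ?_⟩
  · obtain ⟨l, hl⟩ := exists_form (k := k) (one_ne_zero (α := ℂ))
    have h1 : lam l (1 : MvPolynomial (Fin n) ℂ) ∈ P := lam_mem l (by rw [htop]; trivial)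
    have h2 : lam l (1 : MvPolynomial (Fin n) ℂ) = C (l 1) := by
      classical
      ext m
      rw [coeff_lam, coeff_one, coeff_C]
      split_ifs
      · rfl
      · exact map_zero l
    rw [h2] at h1
    exact hP.ne_top (Ideal.eq_top_of_isUnit_mem _ h1 ((isUnit_iff_ne_zero.2 hl).map C))
  · by_contra hcon
    rw [not_or] at hcon
    obtain ⟨l, hl⟩ : ∃ l : ℂ →ₗ[k] k, lam l f ∉ P := by
      by_contra h
      push Not at h
      exact hcon.1 (mem_map_of_lam h)
    obtain ⟨l', hl'⟩ : ∃ l : ℂ →ₗ[k] k, lam l g ∉ P := by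
      by_contra h
      push Not at h
      exact hcon.2 (mem_map_of_lam h)
    have h1 : lam l f * lam l' g ∉ P := fun h => (hP.mem_or_mem h).elim hl hl'
    rw [← IsPrime.vanishingIdeal_zeroLocus (K := k) P, mem_vanishingIdeal_iff] at h1
    push Not at h1
    obtain ⟨z, hz, hzne⟩ := h1
    rw [aeval_eq_eval, map_mul] at hzne
    have h2 := vanish_map hz hfg
    rw [map_mul] at h2
    rcases mul_eq_zero.1 h2 with h3 | h3
    · apply left_ne_zero_of_mul hzne
      rw [eval_lam, h3, map_zero]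
    · apply right_ne_zero_of_mul hzne
      rw [eval_lam, h3, map_zero]

omit [IsAlgClosed k] in
lemma zeroLocus_map (I : Ideal (MvPolynomial (Fin n) k)) :
    zeroLocus ℂ (I.map (map (algebraMap k ℂ))) = zeroLocus ℂ I := by
  ext z
  constructor
  · intro h p hp
    have h1 := h _ (Ideal.mem_map_of_mem (map (algebraMap k ℂ)) hp)
    rwa [aeval_map_algebraMap] at h1
  · intro h f hf
    have h1 : I.map (map (algebraMap k ℂ)) ≤
        RingHom.ker (aeval z : MvPolynomial (Fin n) ℂ →ₐ[ℂ] ℂ).toRingHom := by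
      rw [Ideal.map_le_iff_le_comap]
      intro p hp
      rw [Ideal.mem_comap, RingHom.mem_ker]
      change aeval z (map (algebraMap k ℂ) p) = 0
      rw [aeval_map_algebraMap]
      exact h p hp
    exact h1 hf

/-- the components are defined over the subfield -/
theorem component_desc {J : Ideal (MvPolynomial (Fin n) k)} {B : Set (Fin n → ℂ)}
    (hB : IsComponent B (zeroLocus ℂ J)) :
    ∃ P : Ideal (MvPolynomial (Fin n) k), P.IsPrime ∧ B = zeroLocus ℂ P := by
  obtain ⟨⟨Q, hQ, rfl⟩, hsub, hmax⟩ := hB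
  set P := Q.comap (map (algebraMap k ℂ)) with hP
  have hPp : P.IsPrime := Ideal.comap_isPrime _ _
  have hJP : J ≤ P := by
    intro p hp
    rw [hP, Ideal.mem_comap, ← IsPrime.vanishingIdeal_zeroLocus (K := ℂ) Q, mem_vanishingIdeal_iff]
    intro z hz
    rw [aeval_map_algebraMap]
    exact hsub hz p hp
  have h1 : zeroLocus ℂ Q ⊆ zeroLocus ℂ P := by
    rw [← zeroLocus_map P]
    have h3 : P.map (map (algebraMap k ℂ)) ≤ Q := Ideal.map_comap_le
    exact fun z hz p hp => hz p (h3 hp)
  have h2 : zeroLocus ℂ P ⊆ zeroLocus ℂ J := zeroLocus_anti_mono hJP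
  refine ⟨P, hPp, (hmax _ ⟨_, prime_map P, (zeroLocus_map P).symm⟩ h1 h2).symm⟩

/-- polynomials containing their top monomial, over the subfield -/
theorem topIn_desc {P : Ideal (MvPolynomial (Fin n) k)} (hP : P.IsPrime) {J : Finset (Fin n)}
    {f : MvPolynomial (Fin n) ℂ} (hf : TopIn J f) (hz : ∀ z ∈ zeroLocus ℂ P, eval z f = 0) :
    ∃ g : MvPolynomial (Fin n) k, TopIn J (map (algebraMap k ℂ) g) ∧
      ∀ z ∈ zeroLocus ℂ P, eval z (map (algebraMap k ℂ) g) = 0 := by
  classical
  have hprime := prime_map P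
  have hmem : f ∈ P.map (map (algebraMap k ℂ)) := by
    rw [← IsPrime.vanishingIdeal_zeroLocus (K := ℂ) (P.map (map (algebraMap k ℂ))), mem_vanishingIdeal_iff,
      zeroLocus_map]
    intro z hz'
    rw [aeval_eq_eval]
    exact hz z hz'
  obtain ⟨l, hl⟩ := exists_form (k := k) hf.top
  have hg := lam_mem l hmem
  have hsupp : ∀ m, m ∈ (map (algebraMap k ℂ) (lam l f)).support → m ∈ f.support := by
    intro m hm
    rw [mem_support_iff, coeff_map, coeff_lam] at hm
    rw [mem_support_iff]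
    intro h0
    apply hm
    rw [h0, map_zero, map_zero]
  set t : Fin n →₀ ℕ := Finsupp.equivFunOnFinite.symm fun i => f.degreeOf i with ht
  have htop : (map (algebraMap k ℂ) (lam l f)).coeff t ≠ 0 := by
    rw [coeff_map, coeff_lam, ne_eq, map_eq_zero]
    exact hl
  have hdeg : ∀ i, (map (algebraMap k ℂ) (lam l f)).degreeOf i = f.degreeOf i := by
    intro i
    apply le_antisymm
    · rw [degreeOf_le_iff]
      intro m hm
      exact monomial_le_degreeOf i (hsupp m hm)
    · exact monomial_le_degreeOf i (mem_support_iff.2 htop)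
  refine ⟨lam l f, ⟨?_, ?_⟩, fun z hz' => ?_⟩
  · intro i hi
    rw [mem_vars_iff_mem_support] at hi
    obtain ⟨m, hm, hmi⟩ := hi
    exact hf.vars ((mem_vars_iff_mem_support i).2 ⟨m, hsupp m hm, hmi⟩)
  · have h1 : (Finsupp.equivFunOnFinite.symm fun i => (map (algebraMap k ℂ) (lam l f)).degreeOf i) = t := by
      rw [ht]
      congr 1
      funext i
      exact hdeg i
    rw [h1]
    exact htop
  · have h1 := hz' _ hg
    rw [← aeval_eq_eval, aeval_map_algebraMap]
    exact h1

omit [IsAlgClosed k] in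
/-- the intersections with the diagonals are defined over the subfield -/
lemma inter_desc (I : Ideal (MvPolynomial (Fin n) k)) (π : Fin n → Fin n) :
    ∃ J : Ideal (MvPolynomial (Fin n) k), zeroLocus ℂ I ∩ Del π = zeroLocus ℂ J := by
  refine ⟨Ideal.span ((I : Set (MvPolynomial (Fin n) k)) ∪ {f | ∃ i j, π i = π j ∧ f = X i - X j}), ?_⟩
  rw [zeroLocus_span]
  ext z
  constructor
  · rintro ⟨h1, h2⟩ p (hp | ⟨i, j, hij, rfl⟩)
    · exact h1 p hp
    · rw [map_sub, aeval_X, aeval_X, h2 i j hij, sub_self]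
  · intro h
    refine ⟨fun p hp => h p (Or.inl hp), fun i j hij => ?_⟩
    have h1 := h (X i - X j) (Or.inr ⟨i, j, hij, rfl⟩)
    rw [map_sub, aeval_X, aeval_X, sub_eq_zero] at h1
    exact h1

end desc

/-- hereditary general position over an algebraically closed subfield -/
theorem HerGP.desc {n : ℕ} {ι : Type*} {κ : Fin n → ι} {k : Type*} [Field k] [Algebra k ℂ] [IsAlgClosed k]
    {I : Ideal (MvPolynomial (Fin n) k)} (h : HerGP κ (zeroLocus ℂ I)) {O : ValuationSubring ℂ}
    (hO : ∀ z : k, algebraMap k ℂ z ∈ O) : HerGPAtM 1 O κ (zeroLocus ℂ I) := by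
  intro π hπ B hB hexp J hJ hJ2
  obtain ⟨f, hf, hf0⟩ := h π hπ B hB hexp J hJ hJ2
  obtain ⟨I', hI'⟩ := inter_desc I π
  rw [hI'] at hB
  obtain ⟨P, hP, rfl⟩ := component_desc hB
  obtain ⟨g, hg, hg0⟩ := topIn_desc hP hf hf0
  refine ⟨map (algebraMap k ℂ) g, hg, fun m => ?_, hg0⟩
  rw [Nat.cast_one, one_mul, coeff_map, coeff_map, ← map_div₀]
  exact hO _

/-- **translates by vectors which are separated over a field of definition** -/
theorem zp_over {n : ℕ} {ι : Type*} {κ : Fin n → ι} {k : Subfield ℂ} {I : Ideal (MvPolynomial (Fin n) k)}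
    (hZ : IsSubvariety (zeroLocus ℂ I)) (h : HerGP κ (zeroLocus ℂ I)) {O : ValuationSubring ℂ}
    (hO : ∀ z ∈ k, z ∈ O) {a : Fin n → ℂ} (ha : SepM 1 O κ a) : ZPTranslate κ (zeroLocus ℂ I) a := by
  let K := algebraicClosure k ℂ
  have hK : IsAlgClosed K := (algebraicClosure.isAlgClosure k ℂ).isAlgClosed
  have hKO : ∀ z : K, algebraMap K ℂ z ∈ O := by
    intro z
    have h1 : IsAlgebraic k (z : ℂ) := mem_algebraicClosure_iff.1 z.2
    obtain ⟨p, hp, hp0⟩ := h1.isIntegral
    refine mem_of_isIntegral O ⟨p.map (Subring.inclusion (show k.toSubring ≤ O.toSubring from hO)),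
      hp.map _, ?_⟩
    rw [Polynomial.eval₂_map]
    exact hp0
  have h1 : zeroLocus ℂ I = zeroLocus ℂ (I.map (map (algebraMap k K))) := by
    ext z
    constructor
    · intro hz f hf
      have h2 : I.map (map (algebraMap k K)) ≤
          RingHom.ker (aeval z : MvPolynomial (Fin n) K →ₐ[K] ℂ).toRingHom := by
        rw [Ideal.map_le_iff_le_comap]
        intro p hp
        rw [Ideal.mem_comap, RingHom.mem_ker]
        change aeval z (map (algebraMap k K) p) = 0
        rw [aeval_map_algebraMap]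
        exact hz p hp
      exact h2 hf
    · intro hz p hp
      have h2 := hz _ (Ideal.mem_map_of_mem (map (algebraMap k K)) hp)
      rwa [aeval_map_algebraMap] at h2
  rw [h1] at hZ h ⊢
  exact zp_translateM hZ Nat.one_pos (HerGP.desc h hKO) ha

/-- **constant vectors with entries transcendental over a field of definition** -/
theorem zp_transc {n : ℕ} {k : Subfield ℂ} {I : Ideal (MvPolynomial (Fin n) k)}
    (hZ : IsSubvariety (zeroLocus ℂ I)) (h : HerGP (fun _ : Fin n => ()) (zeroLocus ℂ I)) {c : ℂ}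
    (hc : Transcendental k c) : ZPTranslate (fun _ : Fin n => ()) (zeroLocus ℂ I) (fun _ => c) := by
  have h1 : c ∉ (integralClosure k ℂ).toSubring := fun h => hc (IsIntegral.isAlgebraic h)
  have h2 : IsIntegrallyClosedIn (integralClosure k ℂ).toSubring ℂ :=
    inferInstanceAs (IsIntegrallyClosedIn (integralClosure k ℂ) ℂ)
  obtain ⟨O, hkO, hO⟩ := Subring.exists_le_valuationSubring_of_isIntegrallyClosedIn h1
  refine zp_over hZ h (O := O) (fun z hz => hkO ?_) ⟨fun i h => ?_, fun _ _ => rfl, fun _ _ _ => rfl,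
    fun i j ζ N hN hζ h => ⟨?_, rfl⟩⟩
  · exact isIntegral_algebraMap (R := k) (x := (⟨z, hz⟩ : k))
  · rw [Nat.cast_one, one_mul] at h
    exact hO h
  · by_contra hne
    rw [Nat.cast_one, one_mul] at h
    apply hO
    have h3 : (1 - ζ)⁻¹ ∈ O := by
      refine hkO ?_
      have h4 : IsIntegral k ζ := IsIntegral.of_pow hN (by rw [hζ]; exact isIntegral_one)
      have h5 : IsAlgebraic k (1 - ζ)⁻¹ := (isIntegral_one.sub h4).isAlgebraic.inv
      exact h5.isIntegral
    have h6 : c = (1 - ζ)⁻¹ * (c - ζ * c) := by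
      have h7 : (1 - ζ) ≠ 0 := sub_ne_zero.2 (Ne.symm hne)
      have h8 : c - ζ * c = (1 - ζ) * c := by ring
      rw [h8, inv_mul_cancel_left₀ h7]
    rw [h6]
    exact mul_mem h3 h

end Pool.Agent.Helper36.ZV
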