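import Pool.Agent.Helper36.ZV.Dom
import Pool.Agent.Helper36.ZU.Final

/-! # The maximal atypical subvarieties of a translate, with bounded denominators -/

namespace Pool.Agent.Helper36.ZV
open Finset MvPolynomial Pool.Agent.Helper11.ZP Pool.Agent.Helper20.ZT Pool.Agent Pool.Agent.Helper36.ZU

/-- the vector `a` is separated at the valuation ring `O₀` up to the denominator `M`: the numbers `M a i`
are not in `O₀` and the `a i` have the same valuation, they are equal if `κ i = κ j`, and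
`M (a i - ζ a j) ∈ O₀` for a root of unity `ζ` only if `ζ = 1` and `κ i = κ j` -/
structure SepM {n : ℕ} {ι : Type*} (M : ℕ) (O₀ : ValuationSubring ℂ) (κ : Fin n → ι) (a : Fin n → ℂ) :
    Prop where
  out : ∀ i, (M : ℂ) * a i ∉ O₀
  val : ∀ i j, O₀.valuation (a i) = O₀.valuation (a j)
  same : ∀ i j, κ i = κ j → a i = a j
  sep : ∀ (i j : Fin n) (ζ : ℂ) (N : ℕ), 0 < N → ζ ^ N = 1 → (M : ℂ) * (a i - ζ * a j) ∈ O₀ →
    ζ = 1 ∧ κ i = κ j

/-- **isogenies are equalities** -/
theorem rel_eqM {n : ℕ} {ι : Type*} {K : Type} [Field K] [Algebra ℂ K] {O₀ : ValuationSubring ℂ}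
    {O : ValuationSubring K} (hO : ∀ z ∈ O₀, algebraMap ℂ K z ∈ O)
    (hOn : ∀ z ∈ O₀.nonunits, algebraMap ℂ K z ∈ O.nonunits) {κ : Fin n → ι} {a : Fin n → ℂ} {M : ℕ}
    (ha : SepM M O₀ κ a) {i j : Fin n} {xi xj Pi Pj : K} (hPi : (M : K) * Pi ∈ O) (hPj : (M : K) * Pj ∈ O)
    (hxi : xi = Pi + algebraMap ℂ K (a i)) (hxj : xj = Pj + algebraMap ℂ K (a j))
    (hrig : Rig2 O xi xj) : xi ∉ O ∧ κ i = κ j ∧ Pi = Pj := by
  have hMO : (M : K) ∈ O := natCast_mem O M
  have h0 : ∀ i, a i ≠ 0 := fun i h => ha.out i (by rw [h, mul_zero]; exact zero_mem O₀)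
  have hout : ∀ i, (M : K) * algebraMap ℂ K (a i) ∉ O := by
    intro i h
    apply ha.out i
    rw [← ext_mem_iff hO hOn, map_mul, map_natCast]
    exact h
  have hM0 : (M : K) ≠ 0 := fun h => hout i (by rw [h, zero_mul]; exact zero_mem O)
  have vM0 : 0 < O.valuation (M : K) := zero_lt_iff.2 ((Valuation.ne_zero_iff _).2 hM0)
  have hval : ∀ {i : Fin n} {P : K}, (M : K) * P ∈ O →
      O.valuation (P + algebraMap ℂ K (a i)) = O.valuation (algebraMap ℂ K (a i)) := by
    intro i P hP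
    rw [add_comm]
    refine val_add_of_lt O ?_
    have h1 : O.valuation (M : K) * O.valuation P < O.valuation (M : K) * O.valuation (algebraMap ℂ K (a i)) := by
      rw [← map_mul, ← map_mul]
      exact lt_of_le_of_lt ((val_mem O).1 hP) (not_le.1 fun h => hout i ((val_mem O).2 h))
    exact lt_of_mul_lt_mul_left h1 vM0.le
  have hxiO : xi ∉ O := by
    intro h
    rw [val_mem, hxi, hval hPi, ← val_mem] at h
    exact hout i (mem_mul O hMO h)
  refine ⟨hxiO, ?_⟩
  have hv : O.valuation xi = O.valuation xj := by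
    rw [hxi, hxj, hval hPi, hval hPj]
    exact ext_val_eq hO (h0 i) (h0 j) (ha.val i j)
  rcases hrig hxiO hv with h | ⟨N, ζ, hN, hζ, hζ1, h⟩
  · have h1 : (M : ℂ) * (a i - 1 * a j) ∈ O₀ := by
      rw [← ext_mem_iff hO hOn, map_mul, map_natCast, map_sub, one_mul]
      have h2 : (M : K) * (algebraMap ℂ K (a i) - algebraMap ℂ K (a j)) = M * Pj - M * Pi := by
        rw [hxi, hxj] at h
        linear_combination (M : K) * h
      rw [h2]
      exact mem_sub O hPj hPi
    obtain ⟨-, h3⟩ := ha.sep i j 1 1 one_pos (one_pow _) h1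
    refine ⟨h3, ?_⟩
    rw [hxi, hxj, ha.same i j h3] at h
    exact add_right_cancel h
  · exfalso
    -- the root of unity is complex
    have hroot : ∃ z : ℂ, algebraMap ℂ K z = ζ := by
      have hint : IsIntegral ℂ ζ := ⟨Polynomial.X ^ N - 1, Polynomial.monic_X_pow_sub_C 1 hN.ne', by
        simp [hζ]⟩
      have hmin := minpoly.irreducible hint
      have hdeg := IsAlgClosed.degree_eq_one_of_irreducible ℂ hmin
      exact minpoly.mem_range_of_degree_eq_one ℂ ζ hdeg
    obtain ⟨z, rfl⟩ := hroot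
    have hz : z ^ N = 1 := by
      apply (algebraMap ℂ K).injective
      rw [map_pow, hζ, map_one]
    have h1 : (M : ℂ) * (a j - z * a i) ∈ O₀ := by
      rw [← ext_mem_iff hO hOn, map_mul, map_natCast, map_sub, map_mul]
      have h2 : (M : K) * (algebraMap ℂ K (a j) - algebraMap ℂ K z * algebraMap ℂ K (a i)) =
          M * (xj - algebraMap ℂ K z * xi) - (M * Pj - algebraMap ℂ K z * (M * Pi)) := by
        rw [hxi, hxj]; ring
      rw [h2]
      exact mem_sub O (mem_mul O hMO h)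
        (mem_sub O hPj (mem_mul O ((val_mem O).2 (val_root_one O hN hζ).le) hPi))
    exact hζ1 (by rw [(ha.sep j i z N hN hz h1).1, map_one])

/-- **the counting inequality** -/
theorem ncl_leM {n : ℕ} {ι : Type*} {A : Set (Fin n → ℂ)} (hA : IsSubvariety A) (S : SpecialData n)
    (hAS : A ⊆ S.carrier) (O₀ : ValuationSubring ℂ) {κ : Fin n → ι} {a : Fin n → ℂ} {M : ℕ}
    (hM : 0 < M) (ha : SepM M O₀ κ a) {d' : ℕ}
    {π : Fin n → Fin n} (hπ : ∀ i j, π i = π j ↔ (κ i = κ j ∧ ∀ y ∈ A, y i = y j))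
    (hππ : ∀ i, π (π i) = π i)
    (hgp : ∀ J : Finset (Fin n), J.card = d' + 1 → (∀ i ∈ J, ∀ j ∈ J, i ≠ j → κ i = κ j →
      ∃ y ∈ A, y i ≠ y j) → ∃ f : MvPolynomial (Fin n) ℂ, TopIn J f ∧
      (∀ m, (M : ℂ) * (f.coeff m / f.coeff (Finsupp.equivFunOnFinite.symm fun i => f.degreeOf i)) ∈ O₀) ∧
      ∀ y ∈ A, eval (fun i => y i - a i) f = 0) :
    (univ.image π).card + dim A ≤ S.r + d' := by
  classical
  obtain ⟨K, _, _, _, O, x, E, hO, hOn, hEcard, hgen, hnone, hE, hrel⟩ := generic_point hA S hAS O₀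
  have hMK : (M : K) ≠ 0 := by
    have h1 : algebraMap ℂ K (M : ℂ) ≠ 0 := by
      rw [ne_eq, map_eq_zero]
      exact_mod_cast hM.ne'
    rwa [map_natCast] at h1
  set P : Fin n → K := fun i => x i - algebraMap ℂ K (a i) with hP
  have hxP : ∀ i, x i = P i + algebraMap ℂ K (a i) := fun i => by simp only [hP]; ring
  have hxeq : ∀ i j, x i = x j ↔ ∀ y ∈ A, y i = y j := by
    intro i j
    have h1 := hgen (X i - X j)
    rw [map_sub, aeval_X, aeval_X, sub_eq_zero] at h1
    rw [← h1]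
    refine forall_congr' fun y => forall_congr' fun _ => ?_
    rw [map_sub, eval_X, eval_X, sub_eq_zero]
  set T : Finset (Fin n) := univ.filter fun i => (M : K) * P i ∉ O with hT
  have hTiff : ∀ i, (M : K) * P i ∈ O ↔ i ∉ T := by
    intro i; rw [hT, mem_filter]; simp
  -- representatives
  have hrep : ∀ i, a (π i) = a i ∧ x (π i) = x i := by
    intro i
    obtain ⟨h1, h2⟩ := (hπ (π i) i).1 (hππ i)
    exact ⟨ha.same _ _ h1, (hxeq _ _).2 h2⟩
  have hrepT : ∀ i, π i ∈ T ↔ i ∈ T := by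
    intro i
    obtain ⟨h1, h2⟩ := hrep i
    have h3 : P (π i) = P i := by simp only [hP]; rw [h1, h2]
    rw [← not_iff_not, ← hTiff, ← hTiff, h3]
  -- coordinates outside `T`
  have hU : ∀ i, i ∉ T → ∃ s, S.cls i = some s ∧ s ∉ E := by
    intro i hi
    have h1 : x i ∉ O := (rel_eqM hO hOn ha ((hTiff i).2 hi) ((hTiff i).2 hi) (hxP i) (hxP i)
      (fun _ _ => Or.inl rfl)).1
    rcases h : S.cls i with _ | s
    · exact absurd (hnone i h) h1
    · exact ⟨s, rfl, fun hs => h1 (hE i s h hs)⟩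
  have hUU : ∀ i j s, i ∉ T → j ∉ T → S.cls i = some s → S.cls j = some s → π i = π j := by
    intro i j s hi hj his hjs
    obtain ⟨-, h1, h2⟩ := rel_eqM hO hOn ha ((hTiff i).2 hi) ((hTiff j).2 hj) (hxP i) (hxP j)
      (hrel i j s his hjs).2
    refine (hπ i j).2 ⟨h1, (hxeq i j).1 ?_⟩
    rw [hxP i, hxP j, ha.same i j h1, h2]
  -- the classes outside `T`
  have hcardU : ((univ \ T).image π).card + dim A ≤ S.r := by
    have h1 : ∀ u ∈ (univ \ T).image π, ∃ s, S.cls u = some s ∧ s ∉ E := by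
      intro u hu
      obtain ⟨i, hi, rfl⟩ := mem_image.1 hu
      exact hU _ (fun h => (mem_sdiff.1 hi).2 ((hrepT i).1 h))
    have h2 : ((univ \ T).image π).card ≤ (univ \ E).card := by
      refine le_trans (Finset.card_le_card_of_injOn (t := (univ \ E).image some) S.cls
        (fun u hu => ?_) (fun u hu u' hu' huu => ?_)) card_image_le
      · obtain ⟨s, hs, hsE⟩ := h1 u (mem_coe.1 hu)
        rw [hs]
        exact mem_coe.2 (mem_image_of_mem _ (mem_sdiff.2 ⟨mem_univ _, hsE⟩))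
      · obtain ⟨s, hs, hsE⟩ := h1 u (mem_coe.1 hu)
        obtain ⟨i, hi, rfl⟩ := mem_image.1 (mem_coe.1 hu)
        obtain ⟨j, hj, rfl⟩ := mem_image.1 (mem_coe.1 hu')
        have h3 := hUU (π i) (π j) s (fun h => (mem_sdiff.1 hi).2 ((hrepT i).1 h))
          (fun h => (mem_sdiff.1 hj).2 ((hrepT j).1 h)) hs (by rw [← huu]; exact hs)
        rwa [hππ, hππ] at h3
    rw [card_sdiff_of_subset (subset_univ _), card_univ, Fintype.card_fin, hEcard] at h2
    have h3 : E.card ≤ S.r := by simpa using card_le_univ E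
    omega
  -- the classes in `T`
  have hcardT : (T.image π).card ≤ d' := by
    by_contra hcon
    push Not at hcon
    obtain ⟨J, hJT, hJ⟩ := Finset.exists_subset_card_eq (show d' + 1 ≤ (T.image π).card by omega)
    obtain ⟨f, htop, hf2, hf4⟩ := hgp J hJ (by
      intro i hi j hj hij hκij
      obtain ⟨i', -, rfl⟩ := mem_image.1 (hJT hi)
      obtain ⟨j', -, rfl⟩ := mem_image.1 (hJT hj)
      by_contra hcon2
      push Not at hcon2
      have h1 := (hπ (π i') (π j')).2 ⟨hκij, hcon2⟩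
      rw [hππ, hππ] at h1
      exact hij h1)
    have hPf : aeval P f = 0 := by
      have h1 := (hgen (aeval (fun i => X i - C (a i)) f)).1 (by
        intro y hy
        have h2 := hf4 y hy
        rw [← h2, ← aeval_eq_eval, ← aeval_eq_eval, ← AlgHom.comp_apply]
        congr 1
        apply MvPolynomial.algHom_ext
        intro i
        simp)
      rw [← h1, ← AlgHom.comp_apply]
      congr 1
      apply MvPolynomial.algHom_ext
      intro i
      simp [hP]
    obtain ⟨i, hi, hiO⟩ := dominM O htop hMK (fun m => by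
      have h1 := hO _ (hf2 m)
      rwa [map_mul, map_natCast] at h1) hPf
    obtain ⟨i', hi', rfl⟩ := mem_image.1 (hJT hi)
    exact (hTiff _).1 hiO ((hrepT i').2 hi')
  have hsplit : (univ.image π).card ≤ ((univ \ T).image π).card + (T.image π).card := by
    have h1 : univ.image π = (univ \ T).image π ∪ T.image π := by
      rw [← image_union, sdiff_union_of_subset (subset_univ _)]
    rw [h1]
    exact card_union_le _ _
  omega

variable {n : ℕ} {ι : Type*}

/-- hereditary general position at the cusps at `O₀` with the denominator `M` -/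
def HerGPAtM (M : ℕ) (O₀ : ValuationSubring ℂ) (κ : Fin n → ι) (Z : Set (Fin n → ℂ)) : Prop :=
  ∀ π : Fin n → Fin n, (∀ i j, π i = π j → κ i = κ j) → ∀ B, IsComponent B (Z ∩ Del π) →
    dim B + n ≤ dim Z + ncl π → ∀ J : Finset (Fin n), J.card + n = dim Z + ncl π + 1 →
      (∀ i ∈ J, ∀ j ∈ J, i ≠ j → κ i = κ j → ∃ z ∈ B, z i ≠ z j) →
        ∃ f : MvPolynomial (Fin n) ℂ, TopIn J f ∧
          (∀ m, (M : ℂ) * (f.coeff m / f.coeff (Finsupp.equivFunOnFinite.symm fun i => f.degreeOf i)) ∈ O₀) ∧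
          ∀ z ∈ B, eval z f = 0

/-- **every atypical subvariety is contained in a diagonal one** -/
theorem coverM {κ : Fin n → ι} {Z : Set (Fin n → ℂ)} (hZ : IsSubvariety Z)
    {O₀ : ValuationSubring ℂ} {M : ℕ} (hM : 0 < M) (hgp : HerGPAtM M O₀ κ Z) {a : Fin n → ℂ}
    (ha : SepM M O₀ κ a) {A : Set (Fin n → ℂ)} (hA : IsAtypical (trans Z a) A) :
    ∃ B, IsDiagAtypical κ Z B ∧ A ⊆ trans B a := by
  classical
  obtain ⟨S, ⟨hAs, hAVS, hAmax⟩, hlt⟩ := hA
  -- the partition
  let r : Setoid (Fin n) :=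
    { r := fun i j => κ i = κ j ∧ ∀ y ∈ A, y i = y j
      iseqv := ⟨fun i => ⟨rfl, fun _ _ => rfl⟩, fun h => ⟨h.1.symm, fun y hy => (h.2 y hy).symm⟩,
        fun h h' => ⟨h.1.trans h'.1, fun y hy => (h.2 y hy).trans (h'.2 y hy)⟩⟩ }
  set π : Fin n → Fin n := fun i => (Quotient.mk r i).out with hπdef
  have hout : ∀ i, κ (π i) = κ i ∧ ∀ y ∈ A, y (π i) = y i := fun i => Quotient.mk_out (s := r) i
  have hπ : ∀ i j, π i = π j ↔ (κ i = κ j ∧ ∀ y ∈ A, y i = y j) := by
    intro i j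
    constructor
    · intro h
      obtain ⟨h1, h2⟩ := hout i
      obtain ⟨h3, h4⟩ := hout j
      exact ⟨by rw [← h1, ← h3, h], fun y hy => by rw [← h2 y hy, ← h4 y hy, h]⟩
    · intro h
      have h1 : Quotient.mk r i = Quotient.mk r j := Quotient.sound h
      simp only [hπdef, h1]
  have hππ : ∀ i, π (π i) = π i := fun i => (hπ _ _).2 (hout i)
  have hπκ : ∀ i j, π i = π j → κ i = κ j := fun i j h => ((hπ i j).1 h).1
  -- the component
  have hA' : trans A (-a) ⊆ Z ∩ Del π := by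
    intro z hz
    have h1 := (hAVS hz).1
    refine ⟨?_, fun i j hij => ?_⟩
    · have h2 : trans (trans Z a) (-a) = Z := trans_trans Z a
      rw [← h2]
      exact h1
    · obtain ⟨h2, h3⟩ := (hπ i j).1 hij
      have h4 := h3 _ hz
      have h5 : a i = a j := ha.same i j h2
      simp only [Pi.neg_apply, h5] at h4
      exact sub_left_injective h4
  obtain ⟨I, hI⟩ := closed_inter hZ π
  rw [hI] at hA'
  obtain ⟨B, hB, hAB⟩ := exists_component (isSubvariety_trans hAs _) hA'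
  rw [← hI] at hB
  have hAB' : A ⊆ trans B a := by
    have := trans_mono a hAB
    rwa [trans_trans'] at this
  refine ⟨B, ⟨π, hπκ, hB, ?_⟩, hAB'⟩
  by_contra hexp
  have hexp' : dim B + n ≤ dim Z + ncl π := not_lt.1 hexp
  have hcount := ncl_leM hAs S (fun y hy => (hAVS hy).2) O₀ hM ha (d' := dim Z + ncl π - n) hπ hππ (by
      intro J hJ hJ2
      obtain ⟨f, h1, h2, h4⟩ := hgp π hπκ B hB hexp' J (by omega) (by
        intro i hi j hj hij hκij
        obtain ⟨y, hy, hyij⟩ := hJ2 i hi j hj hij hκij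
        refine ⟨_, hAB' hy, ?_⟩
        intro h
        apply hyij
        rw [ha.same i j hκij] at h
        exact sub_left_injective h)
      exact ⟨f, h1, h2, fun y hy => h4 _ (hAB' hy)⟩)
  have h1 := S.le_dim
  rw [dim_trans] at hlt
  change ncl π + dim A ≤ S.r + (dim Z + ncl π - n) at hcount
  omega

/-- **the maximal atypical subvarieties of the translate** -/
theorem zp_translateM {κ : Fin n → ι} {Z : Set (Fin n → ℂ)} (hZ : IsSubvariety Z)
    {O₀ : ValuationSubring ℂ} {M : ℕ} (hM : 0 < M) (hgp : HerGPAtM M O₀ κ Z) {a : Fin n → ℂ}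
    (ha : SepM M O₀ κ a) : ZPTranslate κ Z a := by
  have h : ∀ A, IsMaxAtypical (trans Z a) A ↔ ∃ B, IsMaxDiag κ Z B ∧ A = trans B a := by
    intro A
    constructor
    · rintro ⟨hA, hmax⟩
      obtain ⟨B, hB, hAB⟩ := coverM hZ hM hgp ha hA
      have h1 := hmax _ (isAtypical_trans hB ha.same) hAB
      refine ⟨B, ⟨hB, fun B' hB' hBB' => ?_⟩, h1.symm⟩
      have h2 := hmax _ (isAtypical_trans hB' ha.same) (by rw [← h1]; exact trans_mono _ hBB')
      exact (trans_inj _).1 (h2.trans h1.symm)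
    · rintro ⟨B, ⟨hB, hmax⟩, rfl⟩
      refine ⟨isAtypical_trans hB ha.same, fun A' hA' hsub => ?_⟩
      obtain ⟨B'', hB'', hAB''⟩ := coverM hZ hM hgp ha hA'
      have h1 := hmax B'' hB'' ((trans_subset_iff _).1 (hsub.trans hAB''))
      rw [h1] at hAB''
      exact Set.Subset.antisymm hAB'' hsub
  refine ⟨isSubvariety_trans hZ a, dim_trans Z a, h, ?_, fun A hA => ?_⟩
  · refine ((finite_maxDiag hZ κ).image fun B => trans B a).subset ?_
    intro A hA
    obtain ⟨B, hB, rfl⟩ := (h A).1 hA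
    exact ⟨B, hB, rfl⟩
  · obtain ⟨B, hB, hAB⟩ := coverM hZ hM hgp ha hA
    obtain ⟨B', hB', hBB'⟩ := exists_maxDiag hZ hB
    exact ⟨trans B' a, (h _).2 ⟨B', hB', rfl⟩, hAB.trans (trans_mono a hBB')⟩

/-- hereditary general position with bounded denominators at all places of the algebraic numbers -/
theorem herGP_all {κ : Fin n → ι} {Z : Set (Fin n → ℂ)} (hZ : IsSubvariety Z) (h : HerGP κ Z) :
    ∃ M : ℕ, 0 < M ∧ ∀ O : ValuationSubring ℂ,
      ∃ O₀ : ValuationSubring ℂ, (∀ z, IsAlgebraic ℚ z → (z ∈ O₀ ↔ z ∈ O)) ∧ HerGPAtM M O₀ κ Z := by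
  classical
  have hfin := finite_diag hZ
  -- the polynomials
  let Q : Set (Fin n → ℂ) → Finset (Fin n) → MvPolynomial (Fin n) ℂ → Prop := fun B J f =>
    TopIn J f ∧ ∀ z ∈ B, eval z f = 0
  let f : Set (Fin n → ℂ) → Finset (Fin n) → MvPolynomial (Fin n) ℂ := fun B J =>
    if h : ∃ f, Q B J f then h.choose else 0
  have hf : ∀ B J, (∃ f, Q B J f) → Q B J (f B J) := by
    intro B J h
    simp only [f, dif_pos h]
    exact h.choose_spec
  let top : MvPolynomial (Fin n) ℂ → ℂ := fun f => f.coeff (Finsupp.equivFunOnFinite.symm fun i => f.degreeOf i)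
  set s : Finset ℂ := (hfin.toFinset ×ˢ (univ : Finset (Finset (Fin n)))).biUnion fun c =>
    (f c.1 c.2).support.image fun m => (f c.1 c.2).coeff m / top (f c.1 c.2) with hs
  obtain ⟨M, hM0, hM⟩ := exists_placeM s
  refine ⟨M, hM0, fun O => ?_⟩
  obtain ⟨O₀, hO⟩ := hM O
  refine ⟨O₀, hO.1, fun π hπ B hB hexp J hJ hJ2 => ?_⟩
  have hBm : B ∈ hfin.toFinset := by
    rw [Set.Finite.mem_toFinset]
    exact ⟨π, hB⟩
  obtain ⟨htop, hz⟩ := hf B J (h π hπ B hB hexp J hJ hJ2)
  refine ⟨f B J, htop, fun m => ?_, hz⟩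
  by_cases hm : m ∈ (f B J).support
  · refine hO.2 _ ?_
    rw [hs, mem_biUnion]
    exact ⟨(B, J), mem_product.2 ⟨hBm, mem_univ _⟩,
      mem_image_of_mem (fun m => (f B J).coeff m / top (f B J)) hm⟩
  · rw [notMem_support_iff.1 hm, zero_div, mul_zero]; exact zero_mem _

/-- separation of algebraic vectors depends only on the place of the algebraic numbers -/
lemma SepM.transfer {O O₀ : ValuationSubring ℂ} (h : ∀ z, IsAlgebraic ℚ z → (z ∈ O₀ ↔ z ∈ O))
    {κ : Fin n → ι} {a : Fin n → ℂ} {M : ℕ} (ha : ∀ i, IsAlgebraic ℚ (a i)) (hs : SepM M O κ a) :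
    SepM M O₀ κ a := by
  have hMa : IsAlgebraic ℚ (M : ℂ) := isAlgebraic_natCast M
  have h0 : ∀ i, a i ≠ 0 := by
    intro i hi
    exact hs.out i (by rw [hi, mul_zero]; exact zero_mem _)
  have hle : ∀ i j, O₀.valuation (a i) ≤ O₀.valuation (a j) := by
    intro i j
    have h1 : a i / a j ∈ O₀ := by
      rw [h _ (by rw [div_eq_mul_inv]; exact (ha i).mul (ha j).inv), val_mem, map_div₀, hs.val i j]
      exact div_self_le_one _
    rw [val_mem, map_div₀] at h1
    have h2 : 0 < O₀.valuation (a j) := zero_lt_iff.2 ((Valuation.ne_zero_iff _).2 (h0 j))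
    rwa [div_le_one₀ h2] at h1
  refine ⟨fun i hi => hs.out i ((h _ (hMa.mul (ha i))).1 hi), fun i j => le_antisymm (hle i j) (hle j i),
    hs.same, fun i j ζ N hN hζ hm => hs.sep i j ζ N hN hζ ((h _ ?_).1 hm)⟩
  have hζa : IsAlgebraic ℚ ζ := (IsIntegral.of_pow (R := ℚ) hN (by rw [hζ]; exact isIntegral_one)).isAlgebraic
  exact hMa.mul ((ha i).sub (hζa.mul (ha j)))

/-- **uniformity** -/
theorem zp_uniformM {κ : Fin n → ι} {Z : Set (Fin n → ℂ)} (hZ : IsSubvariety Z) (h : HerGP κ Z) :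
    ∃ M : ℕ, 0 < M ∧ ∀ (O : ValuationSubring ℂ) (a : Fin n → ℂ), (∀ i, IsAlgebraic ℚ (a i)) →
      SepM M O κ a → ZPTranslate κ Z a := by
  obtain ⟨M, hM0, hM⟩ := herGP_all hZ h
  refine ⟨M, hM0, fun O a ha hs => ?_⟩
  obtain ⟨O₀, h1, h3⟩ := hM O
  exact zp_translateM hZ hM0 h3 (hs.transfer h1 ha)

end Pool.Agent.Helper36.ZV
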