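import Pool.Agent.Helper15.ZT.Cert
import Pool.Agent.Helper36.ZV.Main

/-! # Generic translates: counting of residues -/

namespace Pool.Agent.Helper36.ZV
open Finset MvPolynomial Pool.Agent.Helper11.ZP Pool.Agent.Helper20.ZT Pool.Agent Pool.Agent.Helper36.ZU
open Cardinal

/-- **the count of the residues** -/
theorem res_count {k : Type} [Field k] [Algebra ℂ k] {n d : ℕ} (π : Fin n → Fin n) (T : Finset (Fin n))
    (hT : ∀ i j, π i = π j → i ∈ T → j ∈ T) (μ y t : Fin n → k) (hμ : AlgebraicIndependent ℂ μ)
    (hrel : ∀ i, i ∉ T → μ i = t (π i) - y i) (hTd : T.card ≤ d)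
    (hy : ∀ I' : Finset (Fin n), Disjoint I' T → I'.card + T.card = d + 1 →
      ¬ AlgebraicIndependent ℂ (fun i : I' => y i)) :
    n + (T.image π).card ≤ d + (univ.image π).card := by
  classical
  set U : Finset (Fin n) := univ \ T with hU
  let Idx := U ⊕ (U.image π)
  let ξk : Idx → k := Sum.elim (fun i => y i) (fun s => t s)
  let A := Algebra.adjoin ℂ (Set.range ξk)
  let ξ : Idx → A := fun a => ⟨ξk a, Algebra.subset_adjoin ⟨a, rfl⟩⟩
  have hadj : Algebra.adjoin ℂ (Set.range ξ) = ⊤ := by
    have h1 : Set.range ξ = ((↑) : A → k) ⁻¹' (Set.range ξk) := by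
      ext a
      constructor
      · rintro ⟨b, rfl⟩
        exact ⟨b, rfl⟩
      · rintro ⟨b, hb⟩
        exact ⟨b, Subtype.ext hb⟩
    rw [h1]
    exact Algebra.adjoin_adjoin_coe_preimage
  have halg : Algebra.IsAlgebraic (Algebra.adjoin ℂ (Set.range ξ)) A := by
    refine ⟨fun b => ?_⟩
    have hb : b ∈ Algebra.adjoin ℂ (Set.range ξ) := by rw [hadj]; trivial
    exact isAlgebraic_algebraMap (⟨b, hb⟩ : Algebra.adjoin ℂ (Set.range ξ))
  have hfs : FaithfulSMul ℂ A := (faithfulSMul_iff_algebraMap_injective ℂ A).2 (algebraMap ℂ A).injective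
  obtain ⟨tb, ht, hbas⟩ := exists_isTranscendenceBasis_subset (R := ℂ) (Set.range ξ)
  have htfin : Finite tb := ((Set.finite_range ξ).subset ht).to_subtype
  have hftb : Fintype tb := Fintype.ofFinite tb
  have hidx : ∀ b : tb, ∃ a : Idx, ξ a = b := fun b => ht b.2
  choose idx hidx using hidx
  have hinj : Function.Injective idx := by
    intro b b' hbb
    apply Subtype.ext
    rw [← hidx b, ← hidx b', hbb]
  -- the `μ i`, `i ∈ U`
  have hμA : AlgebraicIndependent ℂ (fun i : U => ξ (Sum.inr ⟨π i, mem_image_of_mem _ i.2⟩) - ξ (Sum.inl i)) := by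
    have h1 : AlgebraicIndependent ℂ (fun i : U => μ i) :=
      hμ.comp (fun i : U => (i : Fin n)) Subtype.val_injective
    refine AlgebraicIndependent.of_comp A.val ?_
    have h2 : (A.val : A → k) ∘ (fun i : U => ξ (Sum.inr ⟨π i, mem_image_of_mem _ i.2⟩) - ξ (Sum.inl i)) =
        fun i : U => μ i := by
      funext i
      rw [hrel i (mem_sdiff.1 i.2).2]
      rfl
    rw [h2]
    exact h1
  have hcard : U.card ≤ Fintype.card tb := by
    have h1 := hμA.cardinalMk_le_trdeg
    rw [← hbas.cardinalMk_eq_trdeg, Cardinal.mk_fintype, Cardinal.mk_fintype, Fintype.card_coe] at h1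
    exact_mod_cast h1
  -- the part of the basis in the `y i`
  set I₁ : Finset (Fin n) := univ.filter fun i => ∃ (b : tb) (hi : i ∈ U), idx b = Sum.inl ⟨i, hi⟩ with hI₁
  have hI₁T : Disjoint I₁ T := by
    rw [Finset.disjoint_left]
    intro i hi hiT
    obtain ⟨-, b, hiU, -⟩ := mem_filter.1 hi
    exact (mem_sdiff.1 hiU).2 hiT
  have hI₁c : I₁.card ≤ d - T.card := by
    by_contra hcon
    push Not at hcon
    obtain ⟨I', hI'I, hI'c⟩ := Finset.exists_subset_card_eq (show d + 1 - T.card ≤ I₁.card by omega)
    refine hy I' (hI₁T.mono_left hI'I) (by omega) ?_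
    -- reindexing
    have hb : ∀ i : I', ∃ (b : tb) (hi : (i : Fin n) ∈ U), idx b = Sum.inl ⟨i, hi⟩ :=
      fun i => (mem_filter.1 (hI'I i.2)).2
    choose b hbU hb using hb
    have hbinj : Function.Injective b := by
      intro i i' hii
      have h1 := hb i
      rw [hii, hb i'] at h1
      have h2 := Sum.inl_injective h1
      exact Subtype.ext (congrArg Subtype.val h2).symm
    have h1 : AlgebraicIndependent ℂ (fun i : I' => ((b i : A) : k)) := by
      have h2 : AlgebraicIndependent ℂ (fun i : I' => (b i : A)) := hbas.1.comp b hbinj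
      exact h2.map' (f := A.val) Subtype.val_injective
    have h3 : (fun i : I' => ((b i : A) : k)) = fun i : I' => y i := by
      funext i
      rw [← hidx (b i), hb i]
      rfl
    rw [h3] at h1
    exact h1
  have hsum : Fintype.card tb ≤ I₁.card + (U.image π).card := by
    have h1 : Fintype.card tb ≤ Fintype.card (I₁ ⊕ (U.image π)) := by
      let φ : tb → I₁ ⊕ (U.image π) := fun b =>
        match h : idx b with
        | Sum.inl i => Sum.inl ⟨i, mem_filter.2 ⟨mem_univ _, b, i.2, h⟩⟩
        | Sum.inr s => Sum.inr s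
      have hφ : ∀ b, (∀ i : U, idx b = Sum.inl i → ∃ h, φ b = Sum.inl ⟨i, h⟩) ∧
          (∀ s, idx b = Sum.inr s → φ b = Sum.inr s) := by
        intro b
        refine ⟨fun i hi => ?_, fun s hs => ?_⟩
        · refine ⟨mem_filter.2 ⟨mem_univ _, b, i.2, hi⟩, ?_⟩
          simp only [φ]
          split
          · next i' h' =>
            rw [h'] at hi
            have := Sum.inl_injective hi
            subst this
            rfl
          · next s' h' => rw [h'] at hi; exact absurd hi (by simp)
        · simp only [φ]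
          split
          · next i' h' => rw [h'] at hs; exact absurd hs (by simp)
          · next s' h' =>
            rw [h'] at hs
            rw [Sum.inr_injective hs]
      refine Fintype.card_le_of_injective φ fun b b' hbb => hinj ?_
      rcases h : idx b with i | s
      · obtain ⟨h1, h2⟩ := (hφ b).1 i h
        rcases h' : idx b' with i' | s'
        · obtain ⟨h3, h4⟩ := (hφ b').1 i' h'
          rw [h2, h4] at hbb
          have h5 := congrArg Subtype.val (Sum.inl_injective hbb)
          exact congrArg Sum.inl (Subtype.ext h5)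
        · rw [h2, (hφ b').2 s' h'] at hbb
          exact absurd hbb (by simp)
      · have h2 := (hφ b).2 s h
        rcases h' : idx b' with i' | s'
        · obtain ⟨h3, h4⟩ := (hφ b').1 i' h'
          rw [h2, h4] at hbb
          exact absurd hbb (by simp)
        · rw [h2, (hφ b').2 s' h'] at hbb
          rw [Sum.inr_injective hbb]
    rw [Fintype.card_sum, Fintype.card_coe, Fintype.card_coe] at h1
    exact h1
  have hUc : U.card + T.card = n := by
    have h1 := card_sdiff_add_card_eq_card (subset_univ T)
    rw [card_univ, Fintype.card_fin] at h1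
    exact h1
  have hdisj : Disjoint (U.image π) (T.image π) := by
    rw [Finset.disjoint_left]
    intro s hs hs'
    obtain ⟨i, hi, rfl⟩ := mem_image.1 hs
    obtain ⟨j, hj, hji⟩ := mem_image.1 hs'
    exact (mem_sdiff.1 hi).2 (hT j i hji hj)
  have hun : (U.image π).card + (T.image π).card ≤ (univ.image π).card := by
    rw [← card_union_of_disjoint hdisj]
    exact card_le_card (union_subset (image_subset_image (subset_univ _)) (image_subset_image (subset_univ _)))
  omega

end Pool.Agent.Helper36.ZV
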