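import Pool.Agent.Helper36.ZV.GenA

/-! # Generic translates: places -/

namespace Pool.Agent.Helper36.ZV
open Finset MvPolynomial Pool.Agent.Helper11.ZP Pool.Agent.Helper20.ZT Pool.Agent Pool.Agent.Helper36.ZU

/-- setting the second variables to zero -/
noncomputable def ev0 (n : ℕ) (J : Finset (Fin n)) :
    MvPolynomial (Fin n ⊕ J) ℂ →ₐ[ℂ] MvPolynomial (Fin n) ℂ :=
  aeval (Sum.elim X fun _ => 0)

/-- a valuation ring at which the `μ i` are generic and the `u j` vanish -/
theorem exists_gen_place {L : Type} [Field L] [Algebra ℂ L] {n : ℕ} (J : Finset (Fin n)) (μ u : Fin n → L)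
    (h : ∀ G : MvPolynomial (Fin n ⊕ J) ℂ, aeval (Sum.elim μ fun j : J => u j) G = 0 → ev0 n J G = 0) :
    ∃ O : ValuationSubring L, (∀ H : MvPolynomial (Fin n) ℂ, H ≠ 0 → O.valuation (aeval μ H) = 1) ∧
      ∀ j ∈ J, u j ∈ O.nonunits := by
  set ev : MvPolynomial (Fin n ⊕ J) ℂ →ₐ[ℂ] L := aeval (Sum.elim μ fun j : J => u j) with hev
  let A : Subring L := ev.toRingHom.range
  let evr : MvPolynomial (Fin n ⊕ J) ℂ →+* A := ev.toRingHom.rangeRestrict
  have hsurj : Function.Surjective evr := ev.toRingHom.rangeRestrict_surjective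
  have hval : ∀ G, ((evr G : A) : L) = ev G := fun G => rfl
  set q : Ideal (MvPolynomial (Fin n ⊕ J) ℂ) := RingHom.ker (ev0 n J).toRingHom with hq
  have hqp : q.IsPrime := RingHom.ker_isPrime _
  have hker : RingHom.ker evr ≤ q := by
    intro G hG
    have h1 : ev G = 0 := by
      rw [← hval, (RingHom.mem_ker).1 hG]
      rfl
    exact h G h1
  have hprime : (q.map evr).IsPrime := Ideal.map_isPrime_of_surjective hsurj hker
  have hcomap : (q.map evr).comap evr = q := by
    rw [Ideal.comap_map_of_surjective' evr hsurj, sup_eq_left]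
    exact hker
  obtain ⟨V, hV1, hV2⟩ := (LocalSubring.ofPrime A (q.map evr)).exists_le_valuationSubring
  have hle : A ≤ V.toSubring := (LocalSubring.le_ofPrime A (q.map evr)).trans hV1
  -- elements outside the prime ideal are units
  have hunit : ∀ G, ev0 n J G ≠ 0 → V.valuation (ev G) = 1 := by
    intro G hG
    have h1 : evr G ∉ q.map evr := by
      intro h2
      have h3 : G ∈ (q.map evr).comap evr := h2
      rw [hcomap] at h3
      exact hG h3
    have h2 : IsUnit (algebraMap A (LocalSubring.ofPrime A (q.map evr)).toSubring (evr G)) :=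
      IsLocalization.map_units _ (⟨evr G, h1⟩ : (q.map evr).primeCompl)
    have h3 := h2.map (Subring.inclusion hV1)
    obtain ⟨v, hv⟩ := h3.exists_right_inv
    have hv' : ev G * (v : L) = 1 := congrArg Subtype.val hv
    have h4 : V.valuation (ev G) ≤ 1 := (val_mem V).1 (hle (evr G).2)
    have h5 : V.valuation (v : L) ≤ 1 := (val_mem V).1 v.2
    have h6 := congrArg V.valuation hv'
    rw [map_mul, map_one] at h6
    refine le_antisymm h4 (not_lt.1 fun h7 => ?_)
    have h8 : V.valuation (ev G) * V.valuation (v : L) < 1 :=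
      lt_of_le_of_lt (mul_le_of_le_one_right' h5) h7
    rw [h6] at h8
    exact lt_irrefl _ h8
  refine ⟨V, fun H hH => ?_, fun j hj => ?_⟩
  · have h1 := hunit (rename Sum.inl H) (by
      rw [ev0, aeval_rename]
      have h2 : (Sum.elim X fun _ => 0 : Fin n ⊕ J → MvPolynomial (Fin n) ℂ) ∘ Sum.inl = X := rfl
      rw [h2, aeval_X_left_apply]
      exact hH)
    rw [hev, aeval_rename] at h1
    exact h1
  · have h1 : evr (X (Sum.inr ⟨j, hj⟩)) ∈ q.map evr := by
      refine Ideal.mem_map_of_mem _ ?_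
      rw [hq, RingHom.mem_ker]
      change ev0 n J (X (Sum.inr ⟨j, hj⟩)) = 0
      rw [ev0, aeval_X]
      rfl
    have h2 := (IsLocalization.AtPrime.to_map_mem_maximal_iff
      (LocalSubring.ofPrime A (q.map evr)).toSubring (q.map evr) (evr (X (Sum.inr ⟨j, hj⟩)))).2 h1
    have h3 : ¬ IsUnit (Subring.inclusion hV1 (algebraMap A (LocalSubring.ofPrime A (q.map evr)).toSubring
        (evr (X (Sum.inr ⟨j, hj⟩))))) := by
      intro h4
      have := hV2
      exact (IsLocalRing.mem_maximalIdeal _).1 h2 (isUnit_of_map_unit (Subring.inclusion hV1) _ h4)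
    have hmem : u j ∈ V := by
      have h5 := hle (evr (X (Sum.inr ⟨j, hj⟩))).2
      have h6 : ((evr (X (Sum.inr ⟨j, hj⟩)) : A) : L) = u j := by
        rw [hval, hev, aeval_X]
        rfl
      rw [h6] at h5
      exact h5
    rw [val_non]
    refine lt_of_le_of_ne ((val_mem V).1 hmem) fun h7 => h3 ?_
    have h8 : (u j)⁻¹ ∈ V := by rw [val_mem, map_inv₀, h7, inv_one]
    have h9 : u j ≠ 0 := by
      intro h0
      rw [h0, map_zero] at h7
      exact zero_ne_one h7
    refine isUnit_iff_exists_inv.2 ⟨⟨(u j)⁻¹, h8⟩, ?_⟩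
    apply Subtype.ext
    have h10 : ((evr (X (Sum.inr ⟨j, hj⟩)) : A) : L) = u j := by
      rw [hval, hev, aeval_X]
      rfl
    change ((evr (X (Sum.inr ⟨j, hj⟩)) : A) : L) * (u j)⁻¹ = 1
    rw [h10, mul_inv_cancel₀ h9]

end Pool.Agent.Helper36.ZV
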