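import Pool.Agent.Helper36.ZV.GenB

/-! # Generic translates: the count at a place -/

namespace Pool.Agent.Helper36.ZV
open Finset MvPolynomial Pool.Agent.Helper11.ZP Pool.Agent.Helper20.ZT Pool.Agent Pool.Agent.Helper36.ZU

/-- **the count at a place** at which the `μ i` are generic -/
theorem count_place {L : Type} [Field L] [Algebra ℂ L] {n d : ℕ} (π : Fin n → Fin n) (μ y t : Fin n → L)
    (hrel : ∀ i, μ i = t (π i) - y i)
    (hgp : ∀ J₀ : Finset (Fin n), J₀.card = d + 1 → ∃ f, TopIn J₀ f ∧ aeval y f = 0)
    (O : ValuationSubring L) (hO : ∀ H : MvPolynomial (Fin n) ℂ, H ≠ 0 → O.valuation (aeval μ H) = 1)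
    (J : Finset (Fin n)) (hJ : ∀ j ∈ J, t (π j) ∉ O) (hinj : Set.InjOn π J) :
    n + J.card ≤ d + (univ.image π).card := by
  classical
  -- constants
  have hC : ∀ c : ℂ, algebraMap ℂ L c ∈ O := by
    intro c
    by_cases hc : c = 0
    · rw [hc, map_zero]; exact zero_mem O
    · have h1 := hO (C c) (by rwa [ne_eq, C_eq_zero])
      rw [aeval_C] at h1
      rw [val_mem, h1]
  have hCn : ∀ c : ℂ, c ≠ 0 → algebraMap ℂ L c ∉ O.nonunits := by
    intro c hc
    have h1 := hO (C c) (by rwa [ne_eq, C_eq_zero])
    rw [aeval_C] at h1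
    rw [val_non, h1]
    exact lt_irrefl _
  have hμO : ∀ i, μ i ∈ O := by
    intro i
    have h1 := hO (X i) (X_ne_zero i)
    rw [aeval_X] at h1
    rw [val_mem, h1]
  set T : Finset (Fin n) := univ.filter fun i => y i ∉ O with hT
  have hTiff : ∀ i, y i ∈ O ↔ i ∉ T := by
    intro i; rw [hT, mem_filter]; simp
  have hyt : ∀ i, y i ∈ O ↔ t (π i) ∈ O := by
    intro i
    constructor
    · intro h
      have h1 : t (π i) = μ i + y i := by rw [hrel]; ring
      rw [h1]
      exact add_mem (hμO i) h
    · intro h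
      have h1 : y i = t (π i) - μ i := by rw [hrel]; ring
      rw [h1]
      exact sub_mem h (hμO i)
  -- the residue field
  let k := IsLocalRing.ResidueField O
  let φ : ℂ →+* O := (algebraMap ℂ L).codRestrict O.toSubring hC
  let _ : Algebra ℂ k := ((IsLocalRing.residue O).comp φ).toAlgebra
  let res : L → k := fun z => if h : z ∈ O then IsLocalRing.residue O ⟨z, h⟩ else 0
  have hres : ∀ (z : L) (h : z ∈ O), res z = IsLocalRing.residue O ⟨z, h⟩ := by
    intro z h
    simp only [res, dif_pos h]
  have hres0 : ∀ (z : L), z ∈ O → (res z = 0 ↔ z ∈ O.nonunits) := by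
    intro z h
    rw [hres z h, IsLocalRing.residue_eq_zero_iff, ← ValuationSubring.coe_mem_nonunits_iff]
  have hpoly : ∀ (s : Finset (Fin n)) (v : Fin n → L), (∀ i ∈ s, v i ∈ O) →
      ∀ g : MvPolynomial s ℂ, ∃ h : aeval (fun i : s => v i) g ∈ O,
        aeval (fun i : s => res (v i)) g = IsLocalRing.residue O ⟨aeval (fun i : s => v i) g, h⟩ := by
    intro s v hv g
    let w : s → O := fun i => ⟨v i, hv i i.2⟩
    have h1 : aeval (fun i : s => v i) g = ((eval₂ φ w g : O) : L) := by
      have h2 := hom_eval₂ g φ O.subtype w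
      rw [aeval_def]
      exact h2.symm
    have h3 : aeval (fun i : s => v i) g ∈ O := by
      rw [h1]
      exact (eval₂ φ w g).2
    refine ⟨h3, ?_⟩
    have h4 : (⟨aeval (fun i : s => v i) g, h3⟩ : O) = eval₂ φ w g := Subtype.ext h1
    rw [h4, hom_eval₂, aeval_def]
    have h5 : (fun i : s => res (v i)) = ⇑(IsLocalRing.residue O) ∘ w := by
      funext i
      exact hres _ (hv i i.2)
    rw [h5]
    rfl
  -- the residues of the `μ i` are algebraically independent
  have hμ : AlgebraicIndependent ℂ (fun i => res (μ i)) := by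
    rw [algebraicIndependent_iff]
    intro H hH
    by_contra hne
    have h1 := hO H hne
    obtain ⟨h2, h3⟩ := hpoly univ μ (fun i _ => hμO i) (rename (fun i => ⟨i, mem_univ i⟩) H)
    rw [aeval_rename] at h3
    have h4 : ((fun i : (univ : Finset (Fin n)) => res (μ i)) ∘ fun i => ⟨i, mem_univ i⟩) =
        fun i => res (μ i) := rfl
    rw [h4, hH] at h3
    have h5 := (IsLocalRing.residue_eq_zero_iff _).1 h3.symm
    rw [← ValuationSubring.coe_mem_nonunits_iff, val_non] at h5
    have h6 : aeval (fun i : (univ : Finset (Fin n)) => μ i) (rename (fun i => (⟨i, mem_univ i⟩ : (univ : Finset (Fin n)))) H) =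
        aeval μ H := by
      rw [aeval_rename]
      rfl
    change O.valuation (aeval (fun i : (univ : Finset (Fin n)) => μ i)
      (rename (fun i => (⟨i, mem_univ i⟩ : (univ : Finset (Fin n)))) H)) < 1 at h5
    rw [h6, h1] at h5
    exact lt_irrefl _ h5
  have hTd : T.card ≤ d := by
    by_contra hcon
    push Not at hcon
    obtain ⟨J₀, hJT, hJ₀⟩ := Finset.exists_subset_card_eq (show d + 1 ≤ T.card by omega)
    obtain ⟨f, hf, hf0⟩ := hgp J₀ hJ₀
    obtain ⟨i, hi, hiO⟩ := domin O hf (fun m => hC _) (hCn _ hf.top) hf0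
    exact (hTiff i).1 hiO (hJT hi)
  have key := res_count (d := d) π T (fun i j hij hi => by
      by_contra hj
      have h1 := (hyt j).1 ((hTiff j).2 hj)
      rw [← hij] at h1
      exact (hTiff i).1 ((hyt i).2 h1) hi)
    (fun i => res (μ i)) (fun i => res (y i)) (fun s => res (t s)) hμ (fun i hi => by
      have h1 := (hTiff i).2 hi
      have h2 := (hyt i).1 h1
      rw [hres _ (hμO i), hres _ h1, hres _ h2, ← map_sub]
      congr 1
      exact Subtype.ext (hrel i)) hTd (fun I' hI' hc hind => by
      obtain ⟨f, hf, hf0⟩ := hgp (I' ∪ T) (by rw [card_union_of_disjoint hI', hc])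
      have h1 := lead_nonunit O f (fun m => hC _) T (P' := y) hf0 hTiff (fun i _ => by
        rw [sub_self, val_non, map_zero]
        exact zero_lt_one)
      have hv : (lead T f).vars ⊆ I' := by
        refine (lead_vars hf T).trans ?_
        rw [union_sdiff_right]
        exact sdiff_subset
      have hne := lead_ne_zero hf T
      obtain ⟨g, hg⟩ := (MvPolynomial.exists_rename_eq_of_vars_subset_range
        (lead T f) (fun i : I' => (i : Fin n)) Subtype.val_injective
        (by intro i hi; exact ⟨⟨i, hv hi⟩, rfl⟩))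
      have hyO : ∀ i ∈ I', y i ∈ O := fun i hi =>
        (hTiff i).2 fun h => Finset.disjoint_left.1 hI' hi h
      obtain ⟨h2, h3⟩ := hpoly I' y hyO g
      have h4 : aeval (fun i : I' => y i) g = aeval y (lead T f) := by
        rw [← hg, aeval_rename]
        rfl
      have h5 : aeval (fun i : I' => res (y i)) g = 0 := by
        rw [h3, IsLocalRing.residue_eq_zero_iff, ← ValuationSubring.coe_mem_nonunits_iff]
        change aeval (fun i : I' => y i) g ∈ O.nonunits
        rw [h4]
        exact h1
      have h6 := (algebraicIndependent_iff.mp hind) g h5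
      apply hne
      rw [← hg, h6, map_zero])
  have hJT : J.card ≤ (T.image π).card := by
    rw [← card_image_of_injOn hinj]
    refine card_le_card (image_subset_image fun j hj => ?_)
    by_contra h
    exact hJ j hj ((hyt j).1 ((hTiff j).2 h))
  omega

end Pool.Agent.Helper36.ZV
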