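import Pool.Agent.Helper36.ZV.GenC
import Pool.Agent.Helper36.ZU.MoebGen

/-! # Generic translates: the incidence variety -/

namespace Pool.Agent.Helper36.ZV
open Finset MvPolynomial Pool.Agent.Helper11.ZP Pool.Agent.Helper20.ZT Pool.Agent Pool.Agent.Helper36.ZU

variable {n : ℕ}

section inc
variable (I : Ideal (MvPolynomial (Fin n) ℂ)) (π : Fin n → Fin n)

/-- the coordinate ring of `Z` with new variables -/
abbrev R₁ : Type := MvPolynomial (Fin n) (MvPolynomial (Fin n) ℂ ⧸ I)

/-- the coordinates of the point of `Z` -/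
noncomputable def yR (i : Fin n) : R₁ I := C (Ideal.Quotient.mk I (X i))

/-- the new variables -/
noncomputable def tR (i : Fin n) : R₁ I := X (π i)

/-- the translation vector -/
noncomputable def muR (i : Fin n) : R₁ I := tR I π i - yR I i

variable [hI : I.IsPrime]

/-- the fraction field -/
abbrev L₁ : Type := FractionRing (R₁ I)

/-- all coordinates in the fraction field -/
noncomputable def gen (J : Finset (Fin n)) : Fin n ⊕ J → L₁ I :=
  Sum.elim (fun i => algebraMap (R₁ I) (L₁ I) (muR I π i))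
    fun j : J => (algebraMap (R₁ I) (L₁ I) (tR I π j))⁻¹

/-- the evaluation at a point -/
noncomputable def evw {y : Fin n → ℂ} (hy : y ∈ zeroLocus ℂ I) (w : Fin n → ℂ) : R₁ I →+* ℂ :=
  eval₂Hom (Ideal.Quotient.lift I (eval y) (fun f hf => by
    have := hy f hf
    rwa [aeval_eq_eval] at this)) w

omit hI in
lemma evw_y {y : Fin n → ℂ} (hy : y ∈ zeroLocus ℂ I) (w : Fin n → ℂ) (i : Fin n) :
    evw I hy w (yR I i) = y i := by
  rw [evw, yR, eval₂Hom_C, Ideal.Quotient.lift_mk, eval_X]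

omit hI in
lemma evw_t {y : Fin n → ℂ} (hy : y ∈ zeroLocus ℂ I) (w : Fin n → ℂ) (i : Fin n) :
    evw I hy w (tR I π i) = w (π i) := by
  rw [evw, tR, eval₂Hom_X']

omit hI in
lemma evw_C {y : Fin n → ℂ} (hy : y ∈ zeroLocus ℂ I) (w : Fin n → ℂ) (c : ℂ) :
    evw I hy w (algebraMap ℂ (R₁ I) c) = c := by
  have h1 : algebraMap ℂ (R₁ I) c = C (Ideal.Quotient.mk I (C c)) := rfl
  rw [h1, evw, eval₂Hom_C, Ideal.Quotient.lift_mk, eval_C]

lemma tR_ne_zero (i : Fin n) : tR I π i ≠ 0 := X_ne_zero _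

/-- clearing of the denominators -/
lemma clear {y : Fin n → ℂ} (hy : y ∈ zeroLocus ℂ I) (w : Fin n → ℂ) (J : Finset (Fin n))
    (hw : ∀ j ∈ J, w (π j) ≠ 0) (G : MvPolynomial (Fin n ⊕ J) ℂ) :
    ∃ (N : ℕ) (r : R₁ I),
      algebraMap (R₁ I) (L₁ I) r = algebraMap (R₁ I) (L₁ I) (∏ j : J, tR I π j) ^ N * aeval (gen I π J) G ∧
      evw I hy w r = (evw I hy w (∏ j : J, tR I π j)) ^ N *
        aeval (Sum.elim (fun i => w (π i) - y i) (fun j : J => (w (π j))⁻¹) : Fin n ⊕ J → ℂ) G := by
  classical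
  set Δ : R₁ I := ∏ j : J, tR I π j with hΔ
  induction G using MvPolynomial.induction_on with
  | C c =>
    refine ⟨0, algebraMap ℂ (R₁ I) c, ?_, ?_⟩
    · rw [pow_zero, one_mul, aeval_C, ← IsScalarTower.algebraMap_apply]
    · rw [pow_zero, one_mul, aeval_C, evw_C]
      rfl
  | add p q hp hq =>
    obtain ⟨N, r, h1, h2⟩ := hp
    obtain ⟨N', r', h3, h4⟩ := hq
    refine ⟨N + N', Δ ^ N' * r + Δ ^ N * r', ?_, ?_⟩
    · rw [map_add, map_mul, map_mul, map_pow, map_pow, h1, h3, map_add]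
      ring
    · rw [map_add, map_mul, map_mul, map_pow, map_pow, h2, h4, map_add]
      ring
  | mul_X p a hp =>
    obtain ⟨N, r, h1, h2⟩ := hp
    rcases a with i | j
    · refine ⟨N, r * muR I π i, ?_, ?_⟩
      · rw [map_mul, h1, map_mul, aeval_X, mul_assoc]
        rfl
      · rw [map_mul, h2, map_mul, aeval_X, mul_assoc, muR, map_sub, evw_t, evw_y]
        rfl
    · refine ⟨N + 1, r * ∏ j' ∈ univ.erase j, tR I π j', ?_, ?_⟩
      · have h3 : algebraMap (R₁ I) (L₁ I) (tR I π j) * (gen I π J (Sum.inr j)) = 1 := by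
          change _ * (algebraMap (R₁ I) (L₁ I) (tR I π j))⁻¹ = 1
          refine mul_inv_cancel₀ fun h0 => tR_ne_zero I π j ?_
          exact (IsFractionRing.injective (R₁ I) (L₁ I)) (h0.trans (map_zero _).symm)
        have h4 : Δ = tR I π j * ∏ j' ∈ univ.erase j, tR I π j' := by
          rw [hΔ]
          exact (mul_prod_erase univ (fun j' : J => tR I π j') (mem_univ j)).symm
        rw [map_mul, h1, map_mul, aeval_X, pow_succ]
        nth_rewrite 3 [h4]
        rw [map_mul]
        linear_combination (-(algebraMap (R₁ I) (L₁ I) Δ ^ N * aeval (gen I π J) p *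
          algebraMap (R₁ I) (L₁ I) (∏ j' ∈ univ.erase j, tR I π j'))) * h3
      · have h3 : evw I hy w (tR I π j) * (w (π j))⁻¹ = 1 := by
          rw [evw_t]
          exact mul_inv_cancel₀ (hw j j.2)
        have h4 : Δ = tR I π j * ∏ j' ∈ univ.erase j, tR I π j' := by
          rw [hΔ]
          exact (mul_prod_erase univ (fun j' : J => tR I π j') (mem_univ j)).symm
        rw [map_mul, h2, map_mul, aeval_X, pow_succ]
        nth_rewrite 3 [h4]
        rw [map_mul, Sum.elim_inr]
        linear_combination (-((evw I hy w) Δ ^ N * aeval (Sum.elim (fun i => w (π i) - y i)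
          (fun j : J => (w (π j))⁻¹) : Fin n ⊕ J → ℂ) p * evw I hy w (∏ j' ∈ univ.erase j, tR I π j'))) * h3

/-- relations hold at all points of the incidence variety -/
theorem special_zero (J : Finset (Fin n)) {G : MvPolynomial (Fin n ⊕ J) ℂ}
    (hG : aeval (gen I π J) G = 0) {μ w : Fin n → ℂ} (hy : (fun i => w i - μ i) ∈ zeroLocus ℂ I)
    (hw : ∀ i j, π i = π j → w i = w j) (hw0 : ∀ j ∈ J, w j ≠ 0) :
    aeval (Sum.elim μ fun j : J => (w j)⁻¹ : Fin n ⊕ J → ℂ) G = 0 := by
  classical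
  -- the values of the new variables
  let v : Fin n → ℂ := fun s => if h : ∃ i, π i = s then w h.choose else 0
  have hv : ∀ i, v (π i) = w i := by
    intro i
    have h : ∃ j, π j = π i := ⟨i, rfl⟩
    simp only [v, dif_pos h]
    exact hw _ _ h.choose_spec
  obtain ⟨N, r, h1, h2⟩ := clear I π hy v J (fun j hj => by rw [hv]; exact hw0 j hj) G
  rw [hG, mul_zero] at h1
  have h3 : r = 0 := (IsFractionRing.injective (R₁ I) (L₁ I)) (h1.trans (map_zero _).symm)
  rw [h3, map_zero] at h2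
  have h4 : (evw I hy v (∏ j : J, tR I π j)) ^ N ≠ 0 := by
    refine pow_ne_zero _ ?_
    rw [map_prod, prod_ne_zero_iff]
    intro j _
    rw [evw_t, hv]
    exact hw0 j j.2
  have h5 := (mul_eq_zero.1 h2.symm).resolve_left h4
  have h6 : (Sum.elim (fun i => v (π i) - (w i - μ i)) (fun j : J => (v (π j))⁻¹) : Fin n ⊕ J → ℂ) =
      Sum.elim μ fun j : J => (w j)⁻¹ := by
    funext a
    rcases a with i | j
    · simp only [Sum.elim_inl, hv]
      ring
    · simp only [Sum.elim_inr, hv]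
  rw [h6] at h5
  exact h5

end inc

end Pool.Agent.Helper36.ZV
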