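import Pool.Agent.Helper36.ZV.GenD

/-! # Generic translates: hereditary general position -/

namespace Pool.Agent.Helper36.ZV
open Finset MvPolynomial Pool.Agent.Helper11.ZP Pool.Agent.Helper20.ZT Pool.Agent Pool.Agent.Helper36.ZU

variable {n : ℕ}

/-- the generic relation -/
theorem exists_G {I : Ideal (MvPolynomial (Fin n) ℂ)} [hI : I.IsPrime] {d : ℕ}
    (hgp : GenPos d (zeroLocus ℂ I)) (π : Fin n → Fin n) (J : Finset (Fin n)) (hinj : Set.InjOn π J)
    (hJ : d + ncl π < n + J.card) :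
    ∃ G : MvPolynomial (Fin n ⊕ J) ℂ, aeval (gen I π J) G = 0 ∧ ev0 n J G ≠ 0 := by
  classical
  by_contra hcon
  push Not at hcon
  obtain ⟨O, hO, hu⟩ := exists_gen_place (L := L₁ I) J
    (fun i => algebraMap (R₁ I) (L₁ I) (muR I π i))
    (fun j => (algebraMap (R₁ I) (L₁ I) (tR I π j))⁻¹) hcon
  have key := count_place (L := L₁ I) (d := d) π (fun i => algebraMap (R₁ I) (L₁ I) (muR I π i))
    (fun i => algebraMap (R₁ I) (L₁ I) (yR I i)) (fun s => algebraMap (R₁ I) (L₁ I) (X s))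
    (fun i => by rw [muR, tR, map_sub]) (fun J₀ hJ₀ => by
      obtain ⟨f, hf, hf0⟩ := hgp J₀ hJ₀
      refine ⟨f, hf, ?_⟩
      have hfI : f ∈ I := by
        rw [← IsPrime.vanishingIdeal_zeroLocus (K := ℂ) I, mem_vanishingIdeal_iff]
        intro z hz
        rw [aeval_eq_eval]
        exact hf0 z hz
      have h1 : aeval (fun i => algebraMap (R₁ I) (L₁ I) (yR I i)) f =
          algebraMap (R₁ I) (L₁ I) (C (Ideal.Quotient.mk I f)) := by
        have h2 : (aeval (fun i => algebraMap (R₁ I) (L₁ I) (yR I i)) : MvPolynomial (Fin n) ℂ →ₐ[ℂ] L₁ I) =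
            (((IsScalarTower.toAlgHom ℂ (R₁ I) (L₁ I)).comp
              (IsScalarTower.toAlgHom ℂ (MvPolynomial (Fin n) ℂ ⧸ I) (R₁ I))).comp
              (Ideal.Quotient.mkₐ ℂ I)) := by
          apply MvPolynomial.algHom_ext
          intro i
          rw [aeval_X]
          rfl
        rw [h2]
        rfl
      rw [h1, Ideal.Quotient.eq_zero_iff_mem.2 hfI, C_0, map_zero]) O hO J (fun j hj ht => by
      have h1 := hu j hj
      have h2 : algebraMap (R₁ I) (L₁ I) (tR I π j) ≠ 0 := fun h0 =>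
        tR_ne_zero I π j ((IsFractionRing.injective (R₁ I) (L₁ I)) (h0.trans (map_zero _).symm))
      have h3 := non_mul O ht h1
      have h4 : algebraMap (R₁ I) (L₁ I) (X (π j)) * (algebraMap (R₁ I) (L₁ I) (tR I π j))⁻¹ = 1 :=
        mul_inv_cancel₀ h2
      rw [h4, val_non, map_one] at h3
      exact lt_irrefl _ h3) hinj
  change n + J.card ≤ d + ncl π at key
  omega

lemma topIn_X_mul {J : Finset (Fin n)} {f : MvPolynomial (Fin n) ℂ} (hf : TopIn J f) {j : Fin n}
    (hj : j ∈ J) : TopIn J (X j * f) := by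
  classical
  have hf0 : f ≠ 0 := by
    intro h0
    apply hf.top
    rw [h0, coeff_zero]
  refine ⟨fun i hi => ?_, ?_⟩
  · have h1 := vars_mul _ _ hi
    rw [vars_X, mem_union, mem_singleton] at h1
    rcases h1 with rfl | h1
    · exact hj
    · exact hf.vars h1
  · have h1 : (Finsupp.equivFunOnFinite.symm fun i => (X j * f).degreeOf i) =
        Finsupp.single j 1 + Finsupp.equivFunOnFinite.symm fun i => f.degreeOf i := by
      ext i
      simp only [Finsupp.equivFunOnFinite_symm_apply_apply, Finsupp.coe_add, Pi.add_apply]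
      rw [degreeOf_mul_eq (X_ne_zero j) hf0, degreeOf_X, Finsupp.single_apply]
      simp only [eq_comm]
    rw [h1, coeff_X_mul]
    exact hf.top

lemma topIn_prod_mul {J : Finset (Fin n)} {f : MvPolynomial (Fin n) ℂ} (hf : TopIn J f)
    (s : Finset (Fin n)) (hs : s ⊆ J) : TopIn J ((∏ j ∈ s, X j) * f) := by
  classical
  induction s using Finset.induction_on with
  | empty => rwa [prod_empty, one_mul]
  | insert a s ha ih =>
    rw [prod_insert ha, mul_assoc]
    exact topIn_X_mul (ih ((subset_insert _ _).trans hs)) (hs (mem_insert_self _ _))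

/-- the relation on the translate -/
theorem topIn_trans {I : Ideal (MvPolynomial (Fin n) ℂ)} [hI : I.IsPrime] (π : Fin n → Fin n)
    (J : Finset (Fin n)) {G : MvPolynomial (Fin n ⊕ J) ℂ} (hG : aeval (gen I π J) G = 0)
    {μ : Fin n → ℂ} (hμ : eval μ (ev0 n J G) ≠ 0) :
    ∃ f, TopIn J f ∧ ∀ z ∈ trans (zeroLocus ℂ I) μ ∩ Del π, eval z f = 0 := by
  classical
  set g : MvPolynomial (Fin n) ℂ := aeval (Sum.elim (fun i => C (μ i)) fun j : J => X (j : Fin n)) G with hg
  have hgv : g.vars ⊆ J := by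
    intro i hi
    rw [hg] at hi
    obtain ⟨a, ha, hia⟩ := Finset.mem_biUnion.1
      (vars_bind₁ (Sum.elim (fun i => C (μ i)) fun j : J => X (j : Fin n)) G hi)
    rcases a with a | j
    · rw [Sum.elim_inl, vars_C] at hia
      exact absurd hia (notMem_empty _)
    · rw [Sum.elim_inr, vars_X, mem_singleton] at hia
      rw [hia]
      exact j.2
  have hg_eval : ∀ w : Fin n → ℂ, eval w g =
      aeval (Sum.elim μ fun j : J => w j : Fin n ⊕ J → ℂ) G := by
    intro w
    rw [hg, ← aeval_eq_eval, ← AlgHom.comp_apply]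
    have h1 : (aeval w : MvPolynomial (Fin n) ℂ →ₐ[ℂ] ℂ).comp
        (aeval (Sum.elim (fun i => C (μ i)) fun j : J => X (j : Fin n))) =
        (aeval (Sum.elim μ fun j : J => w j : Fin n ⊕ J → ℂ) : MvPolynomial (Fin n ⊕ J) ℂ →ₐ[ℂ] ℂ) := by
      apply MvPolynomial.algHom_ext
      rintro (i | j)
      · simp
      · simp
    rw [h1]
  have hg0 : g.coeff 0 ≠ 0 := by
    rw [← constantCoeff_eq, ← eval_zero, hg_eval]
    have h1 : eval μ (ev0 n J G) = aeval (Sum.elim μ fun _ : J => (0 : ℂ) : Fin n ⊕ J → ℂ) G := by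
      rw [ev0, ← aeval_eq_eval, ← AlgHom.comp_apply]
      have h2 : (aeval μ : MvPolynomial (Fin n) ℂ →ₐ[ℂ] ℂ).comp (aeval (Sum.elim X fun _ : J => 0)) =
          (aeval (Sum.elim μ fun _ : J => (0 : ℂ) : Fin n ⊕ J → ℂ) :
            MvPolynomial (Fin n ⊕ J) ℂ →ₐ[ℂ] ℂ) := by
        apply MvPolynomial.algHom_ext
        rintro (i | j)
        · simp
        · simp
      rw [h2]
    rw [h1] at hμ
    exact hμ
  refine ⟨(∏ j ∈ J, X j) * rev g, topIn_prod_mul (rev_topIn hgv hg0) J subset_rfl, fun z hz => ?_⟩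
  rw [map_mul, map_prod]
  by_cases hz0 : ∀ j ∈ J, z j ≠ 0
  · have h1 := special_zero I π J hG (μ := μ) (w := z) hz.1 hz.2 hz0
    set w : Fin n → ℂ := fun i => if i ∈ J then z i else 1 with hw
    have hwJ : ∀ j ∈ J, w j = z j := fun j hj => by rw [hw]; simp only [if_pos hj]
    have hw0 : ∀ i, w i ≠ 0 := by
      intro i
      by_cases hi : i ∈ J
      · rw [hwJ i hi]; exact hz0 i hi
      · rw [hw]; simp only [if_neg hi]; exact one_ne_zero
    have h2 : eval z (rev g) = eval w (rev g) := by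
      refine eval₂Hom_congr' rfl ?_ rfl
      intro i hi _
      exact (hwJ i ((rev_topIn hgv hg0).vars hi)).symm
    rw [h2, rev_eval g hw0, hg_eval]
    have h3 : (Sum.elim μ fun j : J => (w j)⁻¹ : Fin n ⊕ J → ℂ) = Sum.elim μ fun j : J => (z j)⁻¹ := by
      funext a
      rcases a with i | j
      · rfl
      · simp only [Sum.elim_inr, hwJ j j.2]
    rw [h3, h1, mul_zero, mul_zero]
  · push Not at hz0
    obtain ⟨j, hj, hj0⟩ := hz0
    rw [prod_eq_zero hj (by rw [eval_X, hj0]), zero_mul]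

/-- **hereditary relations on the generic translate** -/
theorem exists_Q {Z : Set (Fin n → ℂ)} (hZ : IsSubvariety Z) {d : ℕ} (hgp : GenPos d Z) :
    ∃ Q : MvPolynomial (Fin n) ℂ, Q ≠ 0 ∧ ∀ μ : Fin n → ℂ, eval μ Q ≠ 0 →
      ∀ (π : Fin n → Fin n) (J : Finset (Fin n)), Set.InjOn π J → d + ncl π < n + J.card →
        ∃ f, TopIn J f ∧ ∀ z ∈ trans Z μ ∩ Del π, eval z f = 0 := by
  classical
  obtain ⟨I, hI, rfl⟩ := hZ
  have h : ∀ (π : Fin n → Fin n) (J : Finset (Fin n)), ∃ Q : MvPolynomial (Fin n) ℂ, Q ≠ 0 ∧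
      ∀ μ : Fin n → ℂ, eval μ Q ≠ 0 → Set.InjOn π J → d + ncl π < n + J.card →
        ∃ f, TopIn J f ∧ ∀ z ∈ trans (zeroLocus ℂ I) μ ∩ Del π, eval z f = 0 := by
    intro π J
    by_cases hc : Set.InjOn π J ∧ d + ncl π < n + J.card
    · obtain ⟨G, hG, hG0⟩ := exists_G hgp π J hc.1 hc.2
      exact ⟨ev0 n J G, hG0, fun μ hμ _ _ => topIn_trans π J hG hμ⟩
    · exact ⟨1, one_ne_zero, fun μ _ h1 h2 => absurd ⟨h1, h2⟩ hc⟩
  choose Q hQ0 hQ using h
  refine ⟨∏ π, ∏ J, Q π J, Finset.prod_ne_zero_iff.2 fun π _ => Finset.prod_ne_zero_iff.2 fun J _ => hQ0 π J,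
    fun μ hμ π J => hQ π J μ ?_⟩
  simp only [map_prod] at hμ
  exact Finset.prod_ne_zero_iff.1 (Finset.prod_ne_zero_iff.1 hμ π (mem_univ _)) J (mem_univ _)

/-- independent coordinates -/
theorem exists_indep {B : Set (Fin n → ℂ)} (hB : IsSubvariety B) :
    ∃ J : Finset (Fin n), J.card = dim B ∧ ∀ f : MvPolynomial (Fin n) ℂ, f.vars ⊆ J →
      (∀ z ∈ B, eval z f = 0) → f = 0 := by
  classical
  obtain ⟨I, hI, rfl⟩ := hB
  set V := zeroLocus ℂ I with hV
  have hvan : vanishingIdeal ℂ V = I := IsPrime.vanishingIdeal_zeroLocus (K := ℂ) I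
  have hprime : (vanishingIdeal ℂ V).IsPrime := by rw [hvan]; exact hI
  let A := MvPolynomial (Fin n) ℂ ⧸ vanishingIdeal ℂ V
  let ξ : Fin n → A := fun i => Ideal.Quotient.mk (vanishingIdeal ℂ V) (X i)
  have hadj : Algebra.adjoin ℂ (Set.range ξ) = ⊤ := by
    have h1 : Set.range ξ = (Ideal.Quotient.mkₐ ℂ (vanishingIdeal ℂ V)) '' (Set.range X) := by
      rw [← Set.range_comp]
      rfl
    rw [h1, ← AlgHom.map_adjoin, adjoin_range_X, Algebra.map_top, AlgHom.range_eq_top]
    exact Ideal.Quotient.mkₐ_surjective _ _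
  have halg : Algebra.IsAlgebraic (Algebra.adjoin ℂ (Set.range ξ)) A := by
    refine ⟨fun b => ?_⟩
    have hb : b ∈ Algebra.adjoin ℂ (Set.range ξ) := by rw [hadj]; trivial
    exact isAlgebraic_algebraMap (⟨b, hb⟩ : Algebra.adjoin ℂ (Set.range ξ))
  have hfs : FaithfulSMul ℂ A := (faithfulSMul_iff_algebraMap_injective ℂ A).2 (algebraMap ℂ A).injective
  obtain ⟨tb, ht, hbas⟩ := exists_isTranscendenceBasis_subset (R := ℂ) (Set.range ξ)
  have htfin : Finite tb := ((Set.finite_range ξ).subset ht).to_subtype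
  have hftb : Fintype tb := Fintype.ofFinite tb
  have hidx : ∀ b : tb, ∃ a : Fin n, ξ a = b := fun b => ht b.2
  choose idx hidx using hidx
  have hinj : Function.Injective idx := by
    intro b b' hbb
    apply Subtype.ext
    rw [← hidx b, ← hidx b', hbb]
  have hcard : Fintype.card tb = dim V := by
    have h1 := hbas.cardinalMk_eq_trdeg
    rw [Cardinal.mk_fintype] at h1
    rw [dim, ← h1, Cardinal.toNat_natCast]
  refine ⟨univ.image idx, ?_, fun f hf hf0 => ?_⟩
  · rw [card_image_of_injective _ hinj, card_univ, hcard]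
  · obtain ⟨g, hg⟩ := MvPolynomial.exists_rename_eq_of_vars_subset_range f idx hinj (by
      intro i hi
      obtain ⟨b, _, hb⟩ := mem_image.1 (hf hi)
      exact ⟨b, hb⟩)
    have h1 : aeval (fun b : tb => (b : A)) g = 0 := by
      have h2 : aeval (fun b : tb => (b : A)) g = Ideal.Quotient.mk (vanishingIdeal ℂ V) f := by
        rw [← hg]
        have h3 : (aeval (fun b : tb => (b : A)) : MvPolynomial tb ℂ →ₐ[ℂ] A) =
            (Ideal.Quotient.mkₐ ℂ (vanishingIdeal ℂ V)).comp (rename idx) := by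
          apply MvPolynomial.algHom_ext
          intro b
          rw [aeval_X, AlgHom.comp_apply, rename_X, ← hidx b]
          rfl
        rw [h3]
        rfl
      rw [h2, Ideal.Quotient.eq_zero_iff_mem, mem_vanishingIdeal_iff]
      intro z hz
      rw [aeval_eq_eval]
      exact hf0 z hz
    have h2 := (algebraicIndependent_iff.mp hbas.1) g h1
    rw [← hg, h2, map_zero]

/-- the generic translate has no diagonally atypical subvarieties -/
theorem no_diag {ι : Type*} {κ : Fin n → ι} {W : Set (Fin n → ℂ)}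
    (h : ∀ (π : Fin n → Fin n) (J : Finset (Fin n)), Set.InjOn π J → dim W + ncl π < n + J.card →
        ∃ f, TopIn J f ∧ ∀ z ∈ W ∩ Del π, eval z f = 0) (B : Set (Fin n → ℂ)) :
    ¬ IsDiagAtypical κ W B := by
  classical
  rintro ⟨π, -, ⟨hBs, hBW, -⟩, hlt⟩
  obtain ⟨J, hJ, hJ0⟩ := exists_indep hBs
  have hinj : Set.InjOn π J := by
    intro i hi j hj hij
    by_contra hne
    have h1 : (X i - X j : MvPolynomial (Fin n) ℂ) = 0 := by
      refine hJ0 _ ?_ fun z hz => ?_
      · intro k hk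
        have h2 := vars_sub_subset _ hk
        rw [vars_X, vars_X, mem_union, mem_singleton, mem_singleton] at h2
        rcases h2 with rfl | rfl
        · exact hi
        · exact hj
      · rw [map_sub, eval_X, eval_X, (hBW hz).2 i j hij, sub_self]
    exact hne (X_injective (sub_eq_zero.1 h1))
  obtain ⟨f, hf, hf0⟩ := h π J hinj (by rw [hJ]; omega)
  have h1 := hJ0 f hf.vars fun z hz => hf0 z (hBW hz)
  apply hf.top
  rw [h1, coeff_zero]

/-- the generic translate is in hereditary general position -/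
theorem herGP_of {ι : Type*} {κ : Fin n → ι} {W : Set (Fin n → ℂ)}
    (h : ∀ (π : Fin n → Fin n) (J : Finset (Fin n)), Set.InjOn π J → dim W + ncl π < n + J.card →
        ∃ f, TopIn J f ∧ ∀ z ∈ W ∩ Del π, eval z f = 0) : HerGP κ W := by
  intro π hπ B hB _ J hJ hJ2
  have hinj : Set.InjOn π J := by
    intro i hi j hj hij
    by_contra hne
    obtain ⟨z, hz, hzij⟩ := hJ2 i hi j hj hne (hπ i j hij)
    exact hzij ((hB.2.1 hz).2 i j hij)
  obtain ⟨f, hf, hf0⟩ := h π J hinj (by omega)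
  exact ⟨f, hf, fun z hz => hf0 z (hB.2.1 hz)⟩

/-- **every subvariety, after a general Möbius transformation and a general translation** -/
theorem generic {ι : Type*} (κ : Fin n → ι) {V : Set (Fin n → ℂ)} (hV : IsSubvariety V) :
    ∃ P : MvPolynomial (Fin n) ℂ, P ≠ 0 ∧ ∀ γ : Fin n → ℂ, eval γ P ≠ 0 →
      ∃ Q : MvPolynomial (Fin n) ℂ, Q ≠ 0 ∧ ∀ μ : Fin n → ℂ, eval μ Q ≠ 0 →
        IsSubvariety (trans (moeb γ V) μ) ∧ dim (trans (moeb γ V) μ) = dim V ∧
          HerGP κ (trans (moeb γ V) μ) ∧ ∀ B, ¬ IsDiagAtypical κ (trans (moeb γ V) μ) B := by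
  obtain ⟨P, hP, h⟩ := exists_moeb hV
  refine ⟨P, hP, fun γ hγ => ?_⟩
  obtain ⟨h1, h2, h3⟩ := h γ hγ
  obtain ⟨Q, hQ, h4⟩ := exists_Q h1 h3
  refine ⟨Q, hQ, fun μ hμ => ?_⟩
  have h5 : dim (trans (moeb γ V) μ) = dim V := by rw [dim_trans, h2]
  have h6 := h4 μ hμ
  rw [← h5] at h6
  exact ⟨isSubvariety_trans h1 μ, h5, herGP_of h6, no_diag h6⟩

/-- no atypical subvarieties without diagonal ones -/
theorem no_atyp {ι : Type*} {κ : Fin n → ι} {Z : Set (Fin n → ℂ)} {a : Fin n → ℂ}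
    (h : ZPTranslate κ Z a) (hZ : ∀ B, ¬ IsDiagAtypical κ Z B) (A : Set (Fin n → ℂ)) :
    ¬ IsAtypical (trans Z a) A := by
  intro hA
  obtain ⟨A', hA', -⟩ := h.le A hA
  obtain ⟨B, hB, -⟩ := (h.iff A').1 hA'
  exact hZ B hB.1

end Pool.Agent.Helper36.ZV
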